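import Pool.Agent.Work.MP_433a35_co.GB.Sys.Ker

/-!
# Vectors of lanes in one number (helper36)

`lane L i X` is the block number `i` of `L` bits of `X`.  Operations on whole vectors: exchange of
bits (`ds`) selected by a mask, used for the exchange of lanes and for operations inside the lanes.
-/

set_option linter.unusedVariables false

namespace MP433Sys

namespace Simd

open Finset

/-- lane number `i` -/
def lane (L i X : ℕ) : ℕ := X / 2 ^ (L * i) % 2 ^ L

theorem lane_lt (L i X : ℕ) : lane L i X < 2 ^ L := Nat.mod_lt _ (by positivity)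

theorem lane_testBit (L i X r : ℕ) :
    (lane L i X).testBit r = (decide (r < L) && X.testBit (L * i + r)) := by
  unfold lane
  rw [Nat.testBit_mod_two_pow, Nat.testBit_div_two_pow, add_comm]

theorem lane_testBit_lt {L r : ℕ} (h : r < L) (i X : ℕ) :
    (lane L i X).testBit r = X.testBit (L * i + r) := by
  rw [lane_testBit, decide_eq_true h, Bool.true_and]

theorem testBit_lane (L X n : ℕ) (hL : 0 < L) : X.testBit n = (lane L (n / L) X).testBit (n % L) := by
  rw [lane_testBit_lt (Nat.mod_lt _ hL), Nat.div_add_mod]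

theorem lane_ext {L X Y : ℕ} (hL : 0 < L) (h : ∀ i, lane L i X = lane L i Y) : X = Y := by
  apply Nat.eq_of_testBit_eq
  intro n
  rw [testBit_lane L X n hL, testBit_lane L Y n hL, h]

/-- vector with the lanes `f i` -/
def vec (L N : ℕ) (f : ℕ → ℕ) : ℕ := ∑ i ∈ range N, f i * 2 ^ (L * i)

theorem vec_succ (L N : ℕ) (f : ℕ → ℕ) : vec L (N + 1) f = vec L N f + f N * 2 ^ (L * N) :=
  Finset.sum_range_succ _ _

theorem vec_lt (L N : ℕ) (f : ℕ → ℕ) (hf : ∀ i < N, f i < 2 ^ L) : vec L N f < 2 ^ (L * N) := by
  induction N with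
  | zero => simp [vec]
  | succ N ih =>
    rw [vec_succ]
    have h1 := ih fun i hi => hf i (by omega)
    have h2 := hf N (Nat.lt_succ_self N)
    have e : 2 ^ (L * (N + 1)) = 2 ^ L * 2 ^ (L * N) := by
      rw [← pow_add]; congr 1; ring
    rw [e]
    have h3 : (f N + 1) * 2 ^ (L * N) ≤ 2 ^ L * 2 ^ (L * N) := Nat.mul_le_mul_right _ h2
    have h4 : (f N + 1) * 2 ^ (L * N) = f N * 2 ^ (L * N) + 2 ^ (L * N) := by ring
    omega

theorem lane_vec (L N : ℕ) (f : ℕ → ℕ) (hf : ∀ i < N, f i < 2 ^ L) (i : ℕ) :
    lane L i (vec L N f) = if i < N then f i else 0 := by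
  induction N with
  | zero => simp [vec, lane]
  | succ N ih =>
    have h1 := ih fun i hi => hf i (by omega)
    have hlt := vec_lt L N f fun i hi => hf i (by omega)
    rw [vec_succ]
    unfold lane at *
    rcases lt_trichotomy i N with h | h | h
    · rw [if_pos (by omega)]
      rw [if_pos h] at h1
      have e : L * N = L * i + (L + L * (N - i - 1)) := by
        obtain ⟨m, rfl⟩ : ∃ m, N = i + 1 + m := ⟨N - i - 1, by omega⟩
        have : i + 1 + m - i - 1 = m := by omega
        rw [this]
        ring
      rw [e, pow_add, pow_add, show f N * (2 ^ (L * i) * (2 ^ L * 2 ^ (L * (N - i - 1)))) =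
        2 ^ (L * i) * (2 ^ L * (f N * 2 ^ (L * (N - i - 1)))) by ring,
        Nat.add_mul_div_left _ _ (by positivity), Nat.add_mul_mod_self_left]
      exact h1
    · subst h
      rw [if_pos (Nat.lt_succ_self i), Nat.add_mul_div_right _ _ (by positivity),
        Nat.div_eq_of_lt hlt, zero_add, Nat.mod_eq_of_lt (hf i (Nat.lt_succ_self i))]
    · rw [if_neg (by omega)]
      have h2 : vec L N f + f N * 2 ^ (L * N) < 2 ^ (L * i) := by
        have h3 := vec_lt L (N + 1) f hf
        rw [vec_succ] at h3
        exact lt_of_lt_of_le h3 (Nat.pow_le_pow_right (by norm_num) (Nat.mul_le_mul_left _ h))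
      rw [Nat.div_eq_of_lt h2, Nat.zero_mod]

theorem vec_lane (L N X : ℕ) (hX : X < 2 ^ (L * N)) : vec L N (fun i => lane L i X) = X := by
  induction N generalizing X with
  | zero => simp at hX; simp [vec, hX]
  | succ N ih =>
    rw [vec_succ]
    have e : 2 ^ (L * (N + 1)) = 2 ^ (L * N) * 2 ^ L := by
      rw [← pow_add]; congr 1
    have h1 : X % 2 ^ (L * N) < 2 ^ (L * N) := Nat.mod_lt _ (by positivity)
    have h2 := ih _ h1
    have h3 : ∀ i < N, lane L i (X % 2 ^ (L * N)) = lane L i X := by
      intro i hi
      apply Nat.eq_of_testBit_eq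
      intro r
      rw [lane_testBit, lane_testBit]
      by_cases hr : r < L
      · rw [Nat.testBit_mod_two_pow]
        have : L * i + r < L * N := by
          calc L * i + r < L * i + L := by omega
            _ = L * (i + 1) := by ring
            _ ≤ L * N := Nat.mul_le_mul_left _ hi
        rw [decide_eq_true this, Bool.true_and]
      · rw [decide_eq_false hr, Bool.false_and, Bool.false_and]
    have h4 : vec L N (fun i => lane L i X) = vec L N (fun i => lane L i (X % 2 ^ (L * N))) :=
      Finset.sum_congr rfl fun i hi => by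
        have := h3 i (Finset.mem_range.1 hi)
        simp only
        rw [this]
    rw [h4, h2]
    have h5 : lane L N X = X / 2 ^ (L * N) := by
      unfold lane
      apply Nat.mod_eq_of_lt
      rw [Nat.div_lt_iff_lt_mul (by positivity)]
      rw [e] at hX
      rw [mul_comm]
      exact hX
    rw [h5]
    exact Nat.mod_add_div' X _

theorem vec_congr {L N : ℕ} {f g : ℕ → ℕ} (h : ∀ i < N, f i = g i) : vec L N f = vec L N g :=
  Finset.sum_congr rfl fun i hi => by rw [h i (Finset.mem_range.1 hi)]

theorem vec_mul (L N : ℕ) (f : ℕ → ℕ) (p : ℕ) : vec L N f * p = vec L N (fun i => f i * p) := by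
  unfold vec
  rw [Finset.sum_mul]
  exact Finset.sum_congr rfl fun i _ => by ring

theorem vec_add (L N : ℕ) (f g : ℕ → ℕ) : vec L N f + vec L N g = vec L N (fun i => f i + g i) := by
  unfold vec
  rw [← Finset.sum_add_distrib]
  exact Finset.sum_congr rfl fun i _ => by ring

theorem lane_eq_of_vec {L N X : ℕ} {f : ℕ → ℕ} (hX : X = vec L N f) (hf : ∀ i < N, f i < 2 ^ L)
    {i : ℕ} (hi : i < N) : lane L i X = f i := by
  rw [hX, lane_vec L N f hf, if_pos hi]

/-- all lanes are `1` -/
def ones (L N : ℕ) : ℕ := vec L N fun _ => 1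

theorem ones_eq (L N : ℕ) (hL : 0 < L) : (2 ^ (L * N) - 1) / (2 ^ L - 1) = ones L N := by
  have h : ones L N * (2 ^ L - 1) = 2 ^ (L * N) - 1 := by
    unfold ones vec
    simp only [one_mul, pow_mul]
    have := Nat.geomSum_eq (m := 2 ^ L) (Nat.le_self_pow hL.ne' 2) N
    rw [this]
    exact Nat.div_mul_cancel (Nat.sub_one_dvd_pow_sub_one _ _)
  have h1 : 0 < 2 ^ L - 1 := by
    have : 2 ≤ 2 ^ L := Nat.le_self_pow hL.ne' 2
    omega
  rw [← h, Nat.mul_div_cancel _ h1]

/-! ### bit operations -/

theorem lane_land (L i X Y : ℕ) : lane L i (X &&& Y) = lane L i X &&& lane L i Y := by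
  apply Nat.eq_of_testBit_eq
  intro r
  rw [lane_testBit, Nat.testBit_and, Nat.testBit_and, lane_testBit, lane_testBit]
  cases decide (r < L) <;> simp

theorem lane_xor (L i X Y : ℕ) : lane L i (X ^^^ Y) = lane L i X ^^^ lane L i Y := by
  apply Nat.eq_of_testBit_eq
  intro r
  rw [lane_testBit, Nat.testBit_xor, Nat.testBit_xor, lane_testBit, lane_testBit]
  cases decide (r < L) <;> simp

theorem lane_shr (L i D X : ℕ) : lane L i (X >>> (L * D)) = lane L (i + D) X := by
  apply Nat.eq_of_testBit_eq
  intro r
  rw [lane_testBit, lane_testBit, Nat.testBit_shiftRight]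
  congr 2
  ring

theorem lane_shl (L i D X : ℕ) (hL : 0 < L) :
    lane L i (X <<< (L * D)) = if D ≤ i then lane L (i - D) X else 0 := by
  apply Nat.eq_of_testBit_eq
  intro r
  rw [lane_testBit, Nat.testBit_shiftLeft]
  by_cases hr : r < L
  · by_cases hD : D ≤ i
    · obtain ⟨j, rfl⟩ : ∃ j, i = D + j := ⟨i - D, by omega⟩
      have h1 : L * (D + j) + r ≥ L * D := by rw [mul_add]; omega
      rw [if_pos hD, lane_testBit, decide_eq_true h1, Bool.true_and]
      congr 2
      rw [mul_add]
      have : D + j - D = j := by omega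
      rw [this]
      omega
    · rw [if_neg hD, Nat.zero_testBit]
      have h1 : ¬ (L * i + r ≥ L * D) := by
        have : L * (i + 1) ≤ L * D := Nat.mul_le_mul_left _ (by omega)
        rw [mul_add, mul_one] at this
        omega
      rw [decide_eq_false h1, Bool.false_and, Bool.and_false]
  · rw [decide_eq_false hr, Bool.false_and]
    split_ifs
    · rw [lane_testBit, decide_eq_false hr, Bool.false_and]
    · rw [Nat.zero_testBit]

/-- exchange of the bits `n` and `n + d` for the bits `n` of `m` -/
def ds (X m d : ℕ) : ℕ :=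
  X ^^^ (((X ^^^ (X >>> d)) &&& m) ^^^ (((X ^^^ (X >>> d)) &&& m) <<< d))

/-- the permutation of the bits -/
def rho (m d n : ℕ) : ℕ :=
  if m.testBit n then n + d else if d ≤ n ∧ m.testBit (n - d) then n - d else n

theorem ds_testBit (X m d n : ℕ) (hm : ∀ n, m.testBit n = true → m.testBit (n + d) = false) :
    (ds X m d).testBit n = X.testBit (rho m d n) := by
  unfold ds rho
  simp only [Nat.testBit_xor, Nat.testBit_and, Nat.testBit_shiftRight, Nat.testBit_shiftLeft]
  rw [add_comm d n]
  by_cases h1 : m.testBit n = true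
  · rw [if_pos h1, h1]
    by_cases h2 : d ≤ n
    · have h3 : m.testBit (n - d) = false := by
        cases h4 : m.testBit (n - d)
        · rfl
        · have := hm _ h4
          rw [Nat.sub_add_cancel h2, h1] at this
          exact absurd this (by simp)
      rw [h3]
      cases X.testBit n <;> cases X.testBit (n + d) <;> simp
    · rw [decide_eq_false (by simpa using h2)]
      cases X.testBit n <;> cases X.testBit (n + d) <;> simp
  · rw [if_neg h1]
    rw [Bool.not_eq_true] at h1
    rw [h1]
    by_cases h2 : d ≤ n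
    · rw [decide_eq_true (by simpa using h2)]
      by_cases h3 : m.testBit (n - d) = true
      · rw [if_pos ⟨h2, h3⟩, h3]
        have e : d + (n - d) = n := by omega
        rw [e]
        cases X.testBit n <;> cases X.testBit (n - d) <;> simp
      · rw [if_neg (fun h => h3 h.2)]
        rw [Bool.not_eq_true] at h3
        rw [h3]
        cases X.testBit n <;> simp
    · rw [decide_eq_false (by simpa using h2), if_neg (fun h => h2 h.1)]
      cases X.testBit n <;> simp

/-! ### masks -/

/-- the lanes of a mask -/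
def sel (L N y : ℕ) (i : ℕ) : Bool := decide (i < N) && y.testBit (L * i)

theorem vec_testBit (L N : ℕ) (f : ℕ → ℕ) (hf : ∀ i < N, f i < 2 ^ L) (i r : ℕ) (hr : r < L) :
    (vec L N f).testBit (L * i + r) = (decide (i < N) && (f i).testBit r) := by
  rw [← lane_testBit_lt hr, lane_vec L N f hf]
  by_cases h : i < N
  · rw [if_pos h, decide_eq_true h, Bool.true_and]
  · rw [if_neg h, decide_eq_false h, Bool.false_and, Nat.zero_testBit]

theorem one_lt_pow {L : ℕ} (hL : 0 < L) : 1 < 2 ^ L := Nat.one_lt_two_pow hL.ne'

theorem bit_lt {L : ℕ} (hL : 0 < L) (b : Bool) : (if b = true then 1 else 0 : ℕ) < 2 ^ L := by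
  have := one_lt_pow hL
  split_ifs <;> omega

theorem land_ones (L N y : ℕ) (hL : 0 < L) :
    y &&& ones L N = vec L N fun i => if sel L N y i = true then 1 else 0 := by
  apply lane_ext hL
  intro i
  rw [lane_land, ones, lane_vec _ _ _ (fun _ _ => one_lt_pow hL), lane_vec _ _ _
    (fun i _ => bit_lt hL _)]
  by_cases hi : i < N
  · rw [if_pos hi, if_pos hi]
    apply Nat.eq_of_testBit_eq
    intro r
    rw [Nat.testBit_and, lane_testBit]
    unfold sel
    rw [decide_eq_true hi, Bool.true_and]
    rcases r with _ | r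
    · rw [decide_eq_true hL, Bool.true_and, add_zero]
      cases y.testBit (L * i) <;> simp
    · have : Nat.testBit 1 (r + 1) = false := by
        cases h : Nat.testBit 1 (r + 1)
        · rfl
        · rw [Nat.testBit_one_eq_true_iff_self_eq_zero] at h
          exact absurd h (by simp)
      rw [this, Bool.and_false]
      cases y.testBit (L * i)
      · simp
      · simp only [if_true]
        rw [this]
  · rw [if_neg hi, if_neg hi, Nat.and_zero]

end Simd

end MP433Sys
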