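import Pool.Agent.Work.MP_433a35_co.GB.Simd.Ops

/-!
# Weights of lanes: merging and dropping (helper36)

A lane `x` has a code `x % 2 ^ CB` and a weight field `wf x = x / 2 ^ CB % 2 ^ WB`, which stands for
the integer `wf x - 2 ^ (WB - 1)`.
-/

set_option linter.unusedVariables false

namespace MP433Sys

namespace Simd

open Finset

/-- weight field -/
def wf (CB WB x : ℕ) : ℕ := x / 2 ^ CB % 2 ^ WB

/-- replace the weight field -/
def setw (CB WB x w : ℕ) : ℕ := x % 2 ^ CB + w * 2 ^ CB + x / 2 ^ (CB + WB) * 2 ^ (CB + WB)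

theorem wf_lt (CB WB x : ℕ) : wf CB WB x < 2 ^ WB := Nat.mod_lt _ (by positivity)

theorem decomp (CB WB x : ℕ) : x % 2 ^ CB + wf CB WB x * 2 ^ CB +
    x / 2 ^ (CB + WB) * 2 ^ (CB + WB) = x := by
  unfold wf
  have h1 := Nat.mod_add_div' x (2 ^ CB)
  have h2 := Nat.mod_add_div' (x / 2 ^ CB) (2 ^ WB)
  rw [Nat.div_div_eq_div_mul, ← pow_add] at h2
  conv_rhs => rw [← h1, ← h2]
  rw [pow_add]
  ring

theorem setw_self (CB WB x : ℕ) : setw CB WB x (wf CB WB x) = x := decomp CB WB x

theorem wf_setw (CB WB x w : ℕ) (hw : w < 2 ^ WB) : wf CB WB (setw CB WB x w) = w := by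
  unfold wf setw
  have h1 : x % 2 ^ CB < 2 ^ CB := Nat.mod_lt _ (by positivity)
  rw [show x % 2 ^ CB + w * 2 ^ CB + x / 2 ^ (CB + WB) * 2 ^ (CB + WB) =
    x % 2 ^ CB + (w + x / 2 ^ (CB + WB) * 2 ^ WB) * 2 ^ CB by rw [pow_add]; ring,
    Nat.add_mul_div_right _ _ (by positivity), Nat.div_eq_of_lt h1, zero_add,
    Nat.add_mul_mod_self_right, Nat.mod_eq_of_lt hw]

theorem cod_setw (CB WB x w : ℕ) : setw CB WB x w % 2 ^ CB = x % 2 ^ CB := by
  unfold setw
  rw [show x % 2 ^ CB + w * 2 ^ CB + x / 2 ^ (CB + WB) * 2 ^ (CB + WB) =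
    x % 2 ^ CB + (w + x / 2 ^ (CB + WB) * 2 ^ WB) * 2 ^ CB by rw [pow_add]; ring,
    Nat.add_mul_mod_self_right, Nat.mod_mod]

theorem setw_lt (L CB WB x w : ℕ) (hCW : CB + WB ≤ L) (hx : x < 2 ^ L) (hw : w < 2 ^ WB) :
    setw CB WB x w < 2 ^ L := by
  unfold setw
  obtain ⟨e, rfl⟩ : ∃ e, L = CB + WB + e := ⟨L - (CB + WB), by omega⟩
  have h1 : x % 2 ^ CB < 2 ^ CB := Nat.mod_lt _ (by positivity)
  have h2 : x / 2 ^ (CB + WB) < 2 ^ e := by
    rw [Nat.div_lt_iff_lt_mul (by positivity), ← pow_add, add_comm]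
    exact hx
  have h3 : x % 2 ^ CB + w * 2 ^ CB < 2 ^ (CB + WB) := by
    have h4 : (w + 1) * 2 ^ CB ≤ 2 ^ WB * 2 ^ CB := Nat.mul_le_mul_right _ hw
    rw [pow_add, mul_comm (2 ^ CB) (2 ^ WB)]
    rw [add_mul, one_mul] at h4
    omega
  have h5 : (x / 2 ^ (CB + WB) + 1) * 2 ^ (CB + WB) ≤ 2 ^ e * 2 ^ (CB + WB) :=
    Nat.mul_le_mul_right _ h2
  rw [pow_add 2 (CB + WB) e, mul_comm (2 ^ (CB + WB)) (2 ^ e)]
  rw [add_mul, one_mul] at h5
  omega

/-- mask of the weight field -/
def WM (CB WB : ℕ) : ℕ := (2 ^ WB - 1) * 2 ^ CB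

theorem land_WM (CB WB x : ℕ) : x &&& WM CB WB = wf CB WB x * 2 ^ CB := by
  apply Nat.eq_of_testBit_eq
  intro r
  unfold WM wf
  rw [← Nat.shiftLeft_eq, ← Nat.shiftLeft_eq, Nat.testBit_and, Nat.testBit_shiftLeft,
    Nat.testBit_shiftLeft, Nat.testBit_two_pow_sub_one, Nat.testBit_mod_two_pow,
    Nat.testBit_div_two_pow]
  by_cases h : r ≥ CB
  · have : r - CB + CB = r := by omega
    rw [this]
    cases x.testBit r <;> simp
  · rw [decide_eq_false h]
    simp

theorem WM_lt (L CB WB : ℕ) (hCW : CB + WB ≤ L) : WM CB WB < 2 ^ L := by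
  unfold WM
  have h1 : (2 ^ WB - 1) * 2 ^ CB < 2 ^ WB * 2 ^ CB :=
    Nat.mul_lt_mul_of_pos_right (by have : 0 < 2 ^ WB := by positivity
                                    omega) (by positivity)
  rw [← pow_add] at h1
  exact lt_of_lt_of_le h1 (Nat.pow_le_pow_right (by norm_num) (by omega))

/-- the bias -/
def BB (CB WB : ℕ) : ℕ := 2 ^ (WB - 1) * 2 ^ CB

theorem BB_lt (L CB WB : ℕ) (hWB : 0 < WB) (hCW : CB + WB ≤ L) : BB CB WB < 2 ^ L := by
  unfold BB
  rw [← pow_add]
  exact Nat.pow_lt_pow_right (by norm_num) (by omega)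

/-- lane `i` of the mask gets the weight of lane `i + D` -/
def mrg (L N CB WB X y D : ℕ) : ℕ :=
  (X + ((X >>> (L * D)) &&& ((y &&& ones L N) * WM CB WB)) +
    (((y &&& ones L N) * BB CB WB) <<< (L * D))) -
  ((((X >>> (L * D)) &&& ((y &&& ones L N) * WM CB WB)) <<< (L * D)) +
    ((y &&& ones L N) * BB CB WB))

/-- the new lanes -/
def mlane (L CB WB D X : ℕ) (s : ℕ → Bool) (i : ℕ) : ℕ :=
  if s i = true then setw CB WB (lane L i X)
    (wf CB WB (lane L i X) + wf CB WB (lane L (i + D) X) - 2 ^ (WB - 1))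
  else if D ≤ i ∧ s (i - D) = true then setw CB WB (lane L i X) (2 ^ (WB - 1))
  else lane L i X

theorem mrg_vec (L N CB WB X y D : ℕ) (hL : 0 < L) (hWB : 0 < WB) (hCW : CB + WB ≤ L)
    (hX : X < 2 ^ (L * N)) (hc : ∀ i, sel L N y i = true → sel L N y (i + D) = false)
    (hN : ∀ i, sel L N y i = true → i + D < N)
    (hb : ∀ i, sel L N y i = true → 2 ^ (WB - 1) ≤
      wf CB WB (lane L i X) + wf CB WB (lane L (i + D) X) ∧
      wf CB WB (lane L i X) + wf CB WB (lane L (i + D) X) - 2 ^ (WB - 1) < 2 ^ WB) :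
    mrg L N CB WB X y D = vec L N (mlane L CB WB D X (sel L N y)) := by
  set s := sel L N y with hs
  have hWM := WM_lt L CB WB hCW
  have hBB := BB_lt L CB WB hWB hCW
  have hwl : ∀ x, wf CB WB x * 2 ^ CB < 2 ^ L := by
    intro x
    have h1 : wf CB WB x * 2 ^ CB < 2 ^ WB * 2 ^ CB :=
      Nat.mul_lt_mul_of_pos_right (wf_lt CB WB x) (by positivity)
    rw [← pow_add] at h1
    exact lt_of_lt_of_le h1 (Nat.pow_le_pow_right (by norm_num) (by omega))
  have ht : (X >>> (L * D)) &&& ((y &&& ones L N) * WM CB WB) =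
      vec L N fun i => if s i = true then wf CB WB (lane L (i + D) X) * 2 ^ CB else 0 := by
    apply lane_ext hL
    intro i
    rw [lane_land, lane_shr, lane_mask L N y _ hL hWM, lane_vec _ _ _ (fun _ _ => ite_lt (hwl _) _)]
    by_cases h : s i = true
    · rw [if_pos h, if_pos (sel_lt h), if_pos h, land_WM]
    · rw [if_neg h, Nat.and_zero]
      split_ifs <;> rfl
  have hshift : ∀ f : ℕ → ℕ, (∀ i, f i < 2 ^ L) →
      (vec L N fun i => if s i = true then f i else 0) <<< (L * D) =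
      vec L N fun i => if D ≤ i ∧ s (i - D) = true then f (i - D) else 0 := by
    intro f hf
    apply lane_ext hL
    intro i
    rw [lane_shl _ _ _ _ hL, lane_vec _ _ _ (fun _ _ => ite_lt (hf _) _),
      lane_vec _ _ _ (fun _ _ => ite_lt (hf _) _)]
    by_cases hD : D ≤ i
    · rw [if_pos hD]
      by_cases h : s (i - D) = true
      · have h1 := hN _ h
        rw [if_pos (sel_lt h), if_pos h, if_pos (by omega), if_pos ⟨hD, h⟩]
      · rw [if_neg h]
        have : ¬ (D ≤ i ∧ s (i - D) = true) := fun h' => h h'.2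
        rw [if_neg this]
        split_ifs <;> rfl
    · have : ¬ (D ≤ i ∧ s (i - D) = true) := fun h' => hD h'.1
      rw [if_neg hD, if_neg this]
      split_ifs <;> rfl
  have hB : (y &&& ones L N) * BB CB WB = vec L N fun i => if s i = true then BB CB WB else 0 :=
    mask_vec L N y _ hL
  have ht' := hshift (fun i => wf CB WB (lane L (i + D) X) * 2 ^ CB) (fun _ => hwl _)
  have hB' := hshift (fun _ => BB CB WB) (fun _ => hBB)
  unfold mrg
  rw [ht, hB, ht', hB']
  have hXv := vec_lane L N X hX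
  apply Nat.sub_eq_of_eq_add
  refine Eq.trans (b := vec L N (fun i => lane L i X) +
    (vec L N fun i => if s i = true then wf CB WB (lane L (i + D) X) * 2 ^ CB else 0) +
    vec L N fun i => if D ≤ i ∧ s (i - D) = true then BB CB WB else 0) ?_ ?_
  · rw [hXv]
  rw [vec_add, vec_add, vec_add, vec_add]
  refine vec_congr fun i hi => ?_
  unfold mlane
  have hd := decomp CB WB (lane L i X)
  by_cases h1 : s i = true
  · have h2 : ¬ (D ≤ i ∧ s (i - D) = true) := by
      rintro ⟨h3, h4⟩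
      have := hc _ h4
      rw [Nat.sub_add_cancel h3] at this
      exact absurd (h1.symm.trans this) (by simp)
    obtain ⟨hb1, hb2⟩ := hb i h1
    rw [if_pos h1, if_neg h2, if_pos h1, if_neg h2, if_pos h1]
    unfold setw BB
    obtain ⟨u, hu⟩ : ∃ u, wf CB WB (lane L i X) + wf CB WB (lane L (i + D) X) =
        2 ^ (WB - 1) + u := ⟨_, (Nat.add_sub_cancel' hb1).symm⟩
    rw [hu, Nat.add_sub_cancel_left]
    have h5 : (wf CB WB (lane L i X) + wf CB WB (lane L (i + D) X)) * 2 ^ CB =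
        (2 ^ (WB - 1) + u) * 2 ^ CB := by rw [hu]
    rw [add_mul, add_mul] at h5
    omega
  · rw [if_neg h1, if_neg h1, if_neg h1]
    by_cases h2 : D ≤ i ∧ s (i - D) = true
    · rw [if_pos h2, if_pos h2, if_pos h2, Nat.sub_add_cancel h2.1]
      unfold setw BB
      omega
    · rw [if_neg h2, if_neg h2, if_neg h2]

theorem mlane_lt (L CB WB D X : ℕ) (s : ℕ → Bool) (i : ℕ) (hWB : 0 < WB) (hCW : CB + WB ≤ L)
    (hb : s i = true → wf CB WB (lane L i X) + wf CB WB (lane L (i + D) X) - 2 ^ (WB - 1) <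
      2 ^ WB) : mlane L CB WB D X s i < 2 ^ L := by
  unfold mlane
  split_ifs with h1 h2
  · exact setw_lt L CB WB _ _ hCW (lane_lt _ _ _) (hb h1)
  · exact setw_lt L CB WB _ _ hCW (lane_lt _ _ _) (Nat.pow_lt_pow_right (by norm_num) (by omega))
  · exact lane_lt _ _ _

/-! ### values -/

/-- weight of a lane -/
noncomputable def vr (CB WB x : ℕ) : ℝ := (wf CB WB x : ℝ) - 2 ^ (WB - 1)

/-- reindexing of a sum over the sources of a merge -/
theorem sum_shift (s : ℕ → Bool) (D N : ℕ) (hN : ∀ i, s i = true → i + D < N) (f : ℕ → ℝ) :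
    ∑ i ∈ range N, (if D ≤ i ∧ s (i - D) = true then f i else 0) =
      ∑ i ∈ range N, (if s i = true then f (i + D) else 0) := by
  rw [← Finset.sum_filter, ← Finset.sum_filter]
  refine Finset.sum_nbij' (fun i => i - D) (fun i => i + D) ?_ ?_ ?_ ?_ ?_
  · intro i hi
    rw [Finset.mem_filter, Finset.mem_range] at *
    exact ⟨by omega, hi.2.2⟩
  · intro i hi
    rw [Finset.mem_filter, Finset.mem_range] at *
    exact ⟨hN i hi.2, by omega, by rw [Nat.add_sub_cancel]; exact hi.2⟩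
  · intro i hi
    rw [Finset.mem_filter, Finset.mem_range] at hi
    exact Nat.sub_add_cancel hi.2.1
  · intro i _
    exact Nat.add_sub_cancel _ _
  · intro i hi
    rw [Finset.mem_filter, Finset.mem_range] at hi
    rw [Nat.sub_add_cancel hi.2.1]

/-- the state: number of lanes and total weight -/
def Inv (L N CB WB : ℕ) (X : ℕ) : Prop :=
  X < 2 ^ (L * N) ∧ V L N (fun x => |vr CB WB x|) X < 2 ^ (WB - 1)

/-- value plus allowed error -/
noncomputable def Phi (L N CB WB : ℕ) (F : ℕ → ℝ) (bt : ℝ) (X : ℕ) : ℝ :=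
  V L N (fun x => vr CB WB x * F x) X + V L N (fun x => |vr CB WB x|) X * bt

theorem vr_setw (CB WB x w : ℕ) (hw : w < 2 ^ WB) :
    vr CB WB (setw CB WB x w) = (w : ℝ) - 2 ^ (WB - 1) := by
  unfold vr
  rw [wf_setw CB WB x w hw]

theorem sum_abs_two {N : ℕ} {f : ℕ → ℝ} (hf : ∀ i, 0 ≤ f i) {i j : ℕ} (hi : i < N) (hj : j < N)
    (hij : i ≠ j) : f i + f j ≤ ∑ k ∈ range N, f k := by
  have h1 : ∑ k ∈ ({i, j} : Finset ℕ), f k = f i + f j := Finset.sum_pair hij
  rw [← h1]
  refine Finset.sum_le_sum_of_subset_of_nonneg ?_ fun k _ _ => hf k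
  intro k hk
  rw [Finset.mem_insert, Finset.mem_singleton] at hk
  rw [Finset.mem_range]
  rcases hk with rfl | rfl
  · exact hi
  · exact hj

/-- **Merging.** -/
theorem mrg_spec (L N CB WB X y D : ℕ) (hL : 0 < L) (hWB : 0 < WB) (hCW : CB + WB ≤ L)
    (hX : Inv L N CB WB X) (hc : ∀ i, sel L N y i = true → sel L N y (i + D) = false)
    (hN : ∀ i, sel L N y i = true → i + D < N)
    (he : ∀ i, sel L N y i = true → lane L i X % 2 ^ CB = lane L (i + D) X % 2 ^ CB)
    (F : ℕ → ℝ) (hF : ∀ x y, x % 2 ^ CB = y % 2 ^ CB → F x = F y) (bt : ℝ) (hbt : 0 ≤ bt) :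
    Inv L N CB WB (mrg L N CB WB X y D) ∧
      Phi L N CB WB F bt (mrg L N CB WB X y D) ≤ Phi L N CB WB F bt X := by
  obtain ⟨hX1, hX2⟩ := hX
  set s := sel L N y with hs
  set x : ℕ → ℕ := fun i => lane L i X with hx
  have hpow : (2 : ℝ) ^ WB = 2 * 2 ^ (WB - 1) := by
    rw [← pow_succ']; congr 1; omega
  have hDpos : ∀ i, s i = true → i ≠ i + D := by
    intro i h1 h2
    have := hc i h1
    rw [← h2] at this
    exact absurd (h1.symm.trans this) (by simp)
  have hbd : ∀ i, s i = true → |vr CB WB (x i)| + |vr CB WB (x (i + D))| < 2 ^ (WB - 1) := by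
    intro i hi
    exact lt_of_le_of_lt (sum_abs_two (f := fun i => |vr CB WB (x i)|) (fun i => abs_nonneg _)
      (sel_lt hi) (hN i hi) (hDpos i hi)) hX2
  have hb : ∀ i, s i = true → 2 ^ (WB - 1) ≤ wf CB WB (x i) + wf CB WB (x (i + D)) ∧
      wf CB WB (x i) + wf CB WB (x (i + D)) - 2 ^ (WB - 1) < 2 ^ WB := by
    intro i hi
    have h1 := hbd i hi
    have h2 := neg_abs_le (vr CB WB (x i))
    have h3 := neg_abs_le (vr CB WB (x (i + D)))
    have h4 := le_abs_self (vr CB WB (x i))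
    have h5 := le_abs_self (vr CB WB (x (i + D)))
    unfold vr at h1 h2 h3 h4 h5
    have h6 : 2 ^ (WB - 1) ≤ wf CB WB (x i) + wf CB WB (x (i + D)) := by
      have : (2 : ℝ) ^ (WB - 1) ≤ (wf CB WB (x i) : ℝ) + wf CB WB (x (i + D)) := by linarith
      exact_mod_cast this
    refine ⟨h6, ?_⟩
    have h7 : ((wf CB WB (x i) + wf CB WB (x (i + D)) - 2 ^ (WB - 1) : ℕ) : ℝ) < 2 ^ WB := by
      rw [Nat.cast_sub h6]
      push_cast
      rw [hpow]
      linarith
    exact_mod_cast h7
  have hvec := mrg_vec L N CB WB X y D hL hWB hCW hX1 hc hN hb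
  have hlt : ∀ i, mlane L CB WB D X s i < 2 ^ L :=
    fun i => mlane_lt L CB WB D X s i hWB hCW (fun h => (hb i h).2)
  have hB2 : (2 : ℕ) ^ (WB - 1) < 2 ^ WB := Nat.pow_lt_pow_right (by norm_num) (by omega)
  have hv : ∀ i, vr CB WB (mlane L CB WB D X s i) = vr CB WB (x i) +
      (if s i = true then vr CB WB (x (i + D)) else 0) -
      (if D ≤ i ∧ s (i - D) = true then vr CB WB (x i) else 0) := by
    intro i
    unfold mlane
    by_cases h1 : s i = true
    · have h2 : ¬ (D ≤ i ∧ s (i - D) = true) := by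
        rintro ⟨h3, h4⟩
        have := hc _ h4
        rw [Nat.sub_add_cancel h3] at this
        exact absurd (h1.symm.trans this) (by simp)
      rw [if_pos h1, if_pos h1, if_neg h2, vr_setw _ _ _ _ (hb i h1).2, Nat.cast_sub (hb i h1).1]
      unfold vr
      push_cast
      ring
    · rw [if_neg h1, if_neg h1]
      by_cases h2 : D ≤ i ∧ s (i - D) = true
      · rw [if_pos h2, if_pos h2, vr_setw _ _ _ _ hB2]
        push_cast
        ring
      · rw [if_neg h2, if_neg h2]
        simp [hx]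
  have hFm : ∀ i, F (mlane L CB WB D X s i) = F (x i) := by
    intro i
    apply hF
    unfold mlane
    split_ifs
    · rw [cod_setw]
    · rw [cod_setw]
    · rfl
  have hVval : V L N (fun x => vr CB WB x * F x) (mrg L N CB WB X y D) =
      V L N (fun x => vr CB WB x * F x) X := by
    unfold V
    have h1 : ∀ i ∈ range N, vr CB WB (lane L i (mrg L N CB WB X y D)) *
        F (lane L i (mrg L N CB WB X y D)) = vr CB WB (x i) * F (x i) +
        (if s i = true then vr CB WB (x (i + D)) * F (x (i + D)) else 0) -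
        (if D ≤ i ∧ s (i - D) = true then vr CB WB (x i) * F (x i) else 0) := by
      intro i hi
      rw [lane_eq_of_vec hvec (fun i _ => hlt i) (Finset.mem_range.1 hi), hv, hFm]
      by_cases h2 : s i = true
      · rw [if_pos h2, if_pos h2, hF _ _ (he i h2).symm]
        split_ifs <;> ring
      · rw [if_neg h2, if_neg h2]
        split_ifs <;> ring
    rw [Finset.sum_congr rfl h1, Finset.sum_sub_distrib, Finset.sum_add_distrib,
      sum_shift s D N hN (fun i => vr CB WB (x i) * F (x i))]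
    ring
  have hVabs : V L N (fun x => |vr CB WB x|) (mrg L N CB WB X y D) ≤
      V L N (fun x => |vr CB WB x|) X := by
    unfold V
    have h1 : ∀ i ∈ range N, |vr CB WB (lane L i (mrg L N CB WB X y D))| ≤
        |vr CB WB (x i)| + (if s i = true then |vr CB WB (x (i + D))| else 0) -
        (if D ≤ i ∧ s (i - D) = true then |vr CB WB (x i)| else 0) := by
      intro i hi
      rw [lane_eq_of_vec hvec (fun i _ => hlt i) (Finset.mem_range.1 hi), hv]
      by_cases h2 : D ≤ i ∧ s (i - D) = true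
      · have h1 : ¬ s i = true := by
          intro h1
          have := hc _ h2.2
          rw [Nat.sub_add_cancel h2.1] at this
          exact absurd (h1.symm.trans this) (by simp)
        rw [if_pos h2, if_pos h2, if_neg h1, if_neg h1]
        simp
      · rw [if_neg h2, if_neg h2]
        split_ifs
        · rw [sub_zero, sub_zero]
          exact abs_add_le _ _
        · simp
    refine (Finset.sum_le_sum h1).trans (le_of_eq ?_)
    rw [Finset.sum_sub_distrib, Finset.sum_add_distrib,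
      sum_shift s D N hN (fun i => |vr CB WB (x i)|)]
    ring
  refine ⟨⟨?_, lt_of_le_of_lt hVabs hX2⟩, ?_⟩
  · rw [hvec]
    exact vec_lt L N _ fun i _ => hlt i
  · unfold Phi
    rw [hVval]
    have := mul_le_mul_of_nonneg_right hVabs hbt
    linarith

end Simd

end MP433Sys
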