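import Pool.Agent.Work.MP_433a35_co.GB.Simd.Lane

/-!
# Masked operations (helper36)
-/

set_option linter.unusedVariables false

namespace MP433Sys

namespace Simd

open Finset

theorem mask_lt {L : ℕ} {p : ℕ} (hp : p < 2 ^ L) (b : Bool) :
    (if b = true then 1 else 0 : ℕ) * p < 2 ^ L := by
  split_ifs
  · rw [one_mul]; exact hp
  · rw [zero_mul]; positivity

theorem mask_vec (L N y p : ℕ) (hL : 0 < L) : (y &&& ones L N) * p =
    vec L N fun i => if sel L N y i = true then p else 0 := by
  rw [land_ones L N y hL, vec_mul]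
  refine vec_congr fun i _ => ?_
  split_ifs
  · rw [one_mul]
  · rw [zero_mul]

theorem ite_lt {L p : ℕ} (hp : p < 2 ^ L) (b : Prop) [Decidable b] :
    (if b then p else 0) < 2 ^ L := by
  split_ifs
  · exact hp
  · positivity

theorem sel_lt {L N y i : ℕ} (h : sel L N y i = true) : i < N := by
  unfold sel at h
  rw [Bool.and_eq_true, decide_eq_true_eq] at h
  exact h.1

theorem mask_testBit (L N y p : ℕ) (hL : 0 < L) (hp : p < 2 ^ L) (i r : ℕ) (hr : r < L) :
    ((y &&& ones L N) * p).testBit (L * i + r) = (sel L N y i && p.testBit r) := by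
  rw [mask_vec L N y p hL, vec_testBit _ _ _ (fun _ _ => ite_lt hp _) i r hr]
  by_cases hi : i < N
  · rw [decide_eq_true hi, Bool.true_and]
    cases h : sel L N y i
    · simp
    · simp
  · rw [decide_eq_false hi, Bool.false_and]
    have : sel L N y i = false := by unfold sel; rw [decide_eq_false hi, Bool.false_and]
    rw [this, Bool.false_and]

theorem lane_mask (L N y p : ℕ) (hL : 0 < L) (hp : p < 2 ^ L) (i : ℕ) :
    lane L i ((y &&& ones L N) * p) = if sel L N y i = true then p else 0 := by
  rw [mask_vec L N y p hL, lane_vec _ _ _ (fun _ _ => ite_lt hp _)]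
  by_cases hi : i < N
  · rw [if_pos hi]
  · rw [if_neg hi, if_neg (fun h => hi (sel_lt h))]

/-! ### exchange of lanes -/

/-- the permutation of the lanes -/
def sig (s : ℕ → Bool) (D i : ℕ) : ℕ :=
  if s i = true then i + D else if D ≤ i ∧ s (i - D) = true then i - D else i

theorem lane_swap (L N D y X : ℕ) (hL : 0 < L)
    (hc : ∀ i, sel L N y i = true → sel L N y (i + D) = false) (i : ℕ) :
    lane L i (ds X ((y &&& ones L N) * (2 ^ L - 1)) (L * D)) =
      lane L (sig (sel L N y) D i) X := by
  have hp : 2 ^ L - 1 < 2 ^ L := by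
    have : 0 < 2 ^ L := by positivity
    omega
  have hbit : ∀ r < L, (2 ^ L - 1).testBit r = true := by
    intro r hr
    rw [Nat.testBit_two_pow_sub_one, decide_eq_true hr]
  have hmb : ∀ j r, r < L → ((y &&& ones L N) * (2 ^ L - 1)).testBit (L * j + r) = sel L N y j := by
    intro j r hr
    rw [mask_testBit L N y _ hL hp j r hr, hbit r hr, Bool.and_true]
  have hm : ∀ n, ((y &&& ones L N) * (2 ^ L - 1)).testBit n = true →
      ((y &&& ones L N) * (2 ^ L - 1)).testBit (n + L * D) = false := by
    intro n hn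
    have hr := Nat.mod_lt n hL
    have e := Nat.div_add_mod n L
    have e2 : n + L * D = L * (n / L + D) + n % L := by rw [mul_add]; omega
    rw [← e, hmb _ _ hr] at hn
    rw [e2, hmb _ _ hr]
    exact hc _ hn
  apply Nat.eq_of_testBit_eq
  intro r
  by_cases hr : r < L
  · rw [lane_testBit_lt hr, lane_testBit_lt hr, ds_testBit _ _ _ _ hm]
    congr 1
    unfold rho sig
    rw [hmb i r hr]
    by_cases h1 : sel L N y i = true
    · rw [if_pos h1, if_pos h1]
      ring
    · rw [if_neg h1, if_neg h1]
      by_cases h2 : D ≤ i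
      · obtain ⟨j, rfl⟩ : ∃ j, i = j + D := ⟨i - D, by omega⟩
        have e1 : L * (j + D) + r - L * D = L * j + r := by rw [mul_add]; omega
        have e2 : j + D - D = j := by omega
        have h3 : L * D ≤ L * (j + D) + r := by rw [mul_add]; omega
        rw [e1, e2, hmb j r hr]
        by_cases h4 : sel L N y j = true
        · rw [if_pos ⟨h3, h4⟩, if_pos ⟨h2, h4⟩]
        · rw [if_neg (fun h => h4 h.2), if_neg (fun h => h4 h.2)]
      · have h3 : ¬ (L * D ≤ L * i + r) := by
          have : L * (i + 1) ≤ L * D := Nat.mul_le_mul_left _ (by omega)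
          rw [mul_add, mul_one] at this
          omega
        rw [if_neg (fun h => h3 h.1), if_neg (fun h => h2 h.1)]
  · rw [lane_testBit, lane_testBit, decide_eq_false hr, Bool.false_and, Bool.false_and]

/-- sum of a function over the lanes -/
noncomputable def V (L N : ℕ) (φ : ℕ → ℝ) (X : ℕ) : ℝ := ∑ i ∈ range N, φ (lane L i X)

theorem sum_sig (s : ℕ → Bool) (D N : ℕ) (hc : ∀ i, s i = true → s (i + D) = false)
    (hN : ∀ i, s i = true → i + D < N) (f : ℕ → ℝ) :
    ∑ i ∈ range N, f (sig s D i) = ∑ i ∈ range N, f i := by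
  have hmap : ∀ i ∈ range N, sig s D i ∈ range N := by
    intro i hi
    rw [Finset.mem_range] at *
    unfold sig
    split_ifs with h1 h2
    · exact hN i h1
    · omega
    · exact hi
  have hinv : ∀ i ∈ range N, sig s D (sig s D i) = i := by
    intro i _
    by_cases h1 : s i = true
    · have e1 : sig s D i = i + D := by unfold sig; rw [if_pos h1]
      rw [e1]
      unfold sig
      rw [if_neg (by rw [hc i h1]; simp), if_pos ⟨by omega, by rw [Nat.add_sub_cancel]; exact h1⟩,
        Nat.add_sub_cancel]
    · by_cases h2 : D ≤ i ∧ s (i - D) = true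
      · have e1 : sig s D i = i - D := by unfold sig; rw [if_neg h1, if_pos h2]
        rw [e1]
        unfold sig
        rw [if_pos h2.2]
        omega
      · have e1 : sig s D i = i := by unfold sig; rw [if_neg h1, if_neg h2]
        rw [e1, e1]
  exact Finset.sum_nbij' (sig s D) (sig s D) hmap hmap hinv hinv (fun _ _ => rfl)

theorem V_swap (L N D y X : ℕ) (hL : 0 < L)
    (hc : ∀ i, sel L N y i = true → sel L N y (i + D) = false)
    (hN : ∀ i, sel L N y i = true → i + D < N) (φ : ℕ → ℝ) :
    V L N φ (ds X ((y &&& ones L N) * (2 ^ L - 1)) (L * D)) = V L N φ X := by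
  unfold V
  rw [← sum_sig (sel L N y) D N hc hN (fun i => φ (lane L i X))]
  exact Finset.sum_congr rfl fun i _ => by rw [lane_swap L N D y X hL hc]

theorem lt_of_lanes {L N X : ℕ} (hL : 0 < L) (h : ∀ i, N ≤ i → lane L i X = 0) :
    X < 2 ^ (L * N) := by
  by_contra hge
  have hX : X = vec L N fun i => lane L i X := by
    apply lane_ext hL
    intro i
    rw [lane_vec _ _ _ (fun i _ => lane_lt L i X)]
    split_ifs with hi
    · rfl
    · exact h i (not_lt.1 hi)
  have := vec_lt L N (fun i => lane L i X) (fun i _ => lane_lt L i X)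
  omega

theorem lane_big {L N X : ℕ} (hX : X < 2 ^ (L * N)) {i : ℕ} (hi : N ≤ i) : lane L i X = 0 := by
  unfold lane
  rw [Nat.div_eq_of_lt (lt_of_lt_of_le hX (Nat.pow_le_pow_right (by norm_num)
    (Nat.mul_le_mul_left _ hi))), Nat.zero_mod]

theorem swap_lt (L N D y X : ℕ) (hL : 0 < L) (hX : X < 2 ^ (L * N))
    (hc : ∀ i, sel L N y i = true → sel L N y (i + D) = false)
    (hN : ∀ i, sel L N y i = true → i + D < N) :
    ds X ((y &&& ones L N) * (2 ^ L - 1)) (L * D) < 2 ^ (L * N) := by
  apply lt_of_lanes hL
  intro i hi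
  rw [lane_swap L N D y X hL hc]
  have e : sig (sel L N y) D i = i := by
    unfold sig
    rw [if_neg (fun h => by have := sel_lt h; omega), if_neg (fun h => by
      have := hN _ h.2; omega)]
  rw [e]
  exact lane_big hX hi

/-! ### operations inside the lanes -/

theorem lane_rel (L N d p y X : ℕ) (hL : 0 < L)
    (hp1 : ∀ r, p.testBit r = true → r + d < L)
    (hp2 : ∀ r, p.testBit r = true → p.testBit (r + d) = false) (i : ℕ) :
    lane L i (ds X ((y &&& ones L N) * p) d) =
      if sel L N y i = true then ds (lane L i X) p d else lane L i X := by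
  have hp : p < 2 ^ L := by
    apply Nat.lt_pow_two_of_testBit
    intro r hr
    cases h : p.testBit r
    · rfl
    · have := hp1 r h
      omega
  have hmb : ∀ j r, r < L → ((y &&& ones L N) * p).testBit (L * j + r) =
      (sel L N y j && p.testBit r) := fun j r hr => mask_testBit L N y p hL hp j r hr
  have hm : ∀ n, ((y &&& ones L N) * p).testBit n = true →
      ((y &&& ones L N) * p).testBit (n + d) = false := by
    intro n hn
    have hr := Nat.mod_lt n hL
    have e := Nat.div_add_mod n L
    rw [← e, hmb _ _ hr, Bool.and_eq_true] at hn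
    have h1 := hp1 _ hn.2
    have e2 : n + d = L * (n / L) + (n % L + d) := by omega
    rw [e2, hmb _ _ h1, hp2 _ hn.2, Bool.and_false]
  apply Nat.eq_of_testBit_eq
  intro r
  by_cases hr : r < L
  · rw [lane_testBit_lt hr, ds_testBit _ _ _ _ hm]
    unfold rho
    rw [hmb i r hr]
    by_cases hs : sel L N y i = true
    · rw [if_pos hs, ds_testBit _ _ _ _ hp2, hs, Bool.true_and]
      unfold rho
      by_cases h1 : p.testBit r = true
      · rw [if_pos h1, if_pos h1, lane_testBit_lt (hp1 r h1), add_assoc]
      · rw [if_neg h1, if_neg h1]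
        by_cases h2 : d ≤ r
        · have h3 : d ≤ L * i + r := by omega
          have e3 : L * i + r - d = L * i + (r - d) := by omega
          rw [e3, hmb i (r - d) (by omega), hs, Bool.true_and]
          by_cases h4 : p.testBit (r - d) = true
          · rw [if_pos ⟨h3, h4⟩, if_pos ⟨h2, h4⟩, lane_testBit_lt (by omega)]
          · rw [if_neg (fun h => h4 h.2), if_neg (fun h => h4 h.2), lane_testBit_lt hr]
        · have hR : (if d ≤ r ∧ p.testBit (r - d) = true then r - d else r) = r :=
            if_neg (fun h => h2 h.1)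
          rw [hR, lane_testBit_lt hr]
          rw [if_neg]
          rintro ⟨h3, h4⟩
          have hr' := Nat.mod_lt (L * i + r - d) hL
          have e3 := Nat.div_add_mod (L * i + r - d) L
          rw [← e3, hmb _ _ hr', Bool.and_eq_true] at h4
          have h5 := hp1 _ h4.2
          have h6 : L * i + r - d = L * ((L * i + r - d) / L) + (L * i + r - d) % L := e3.symm
          have h7 : L * i + r = L * ((L * i + r - d) / L) + ((L * i + r - d) % L + d) := by omega
          have h8 : (L * i + r) % L = (L * i + r - d) % L + d := by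
            conv_lhs => rw [h7]
            rw [Nat.mul_add_mod, Nat.mod_eq_of_lt h5]
          rw [Nat.mul_add_mod, Nat.mod_eq_of_lt hr] at h8
          omega
    · rw [if_neg hs, lane_testBit_lt hr]
      have hs' : sel L N y i = false := by simpa using hs
      rw [hs', Bool.false_and, if_neg (by simp), if_neg]
      rintro ⟨h3, h4⟩
      have hr' := Nat.mod_lt (L * i + r - d) hL
      have e3 := Nat.div_add_mod (L * i + r - d) L
      rw [← e3, hmb _ _ hr', Bool.and_eq_true] at h4
      have h5 := hp1 _ h4.2
      have h7 : L * i + r = L * ((L * i + r - d) / L) + ((L * i + r - d) % L + d) := by omega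
      have h8 : (L * i + r) / L = (L * i + r - d) / L := by
        conv_lhs => rw [h7]
        rw [Nat.mul_add_div hL, Nat.div_eq_of_lt h5, add_zero]
      rw [Nat.mul_add_div hL, Nat.div_eq_of_lt hr, add_zero] at h8
      rw [← h8, hs'] at h4
      exact absurd h4.1 (by simp)
  · rw [lane_testBit, decide_eq_false hr, Bool.false_and]
    split_ifs with hs
    · rw [ds_testBit _ _ _ _ hp2]
      have h1 : rho p d r = r := by
        unfold rho
        rw [if_neg (fun h => by have := hp1 r h; omega), if_neg (fun h => by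
          have := hp1 _ h.2; omega)]
      rw [h1, lane_testBit, decide_eq_false hr, Bool.false_and]
    · rw [lane_testBit, decide_eq_false hr, Bool.false_and]

/-- a list of exchanges -/
def dss (ps : List (ℕ × ℕ)) (x : ℕ) : ℕ := ps.foldl (fun x q => ds x q.1 q.2) x

/-- a list of exchanges in the lanes of a mask -/
def mds (b : ℕ) (ps : List (ℕ × ℕ)) (X : ℕ) : ℕ := ps.foldl (fun X q => ds X (b * q.1) q.2) X

/-- the exchange stays inside the lane -/
def GoodP (L : ℕ) (q : ℕ × ℕ) : Prop :=
  (∀ r, q.1.testBit r = true → r + q.2 < L) ∧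
  (∀ r, q.1.testBit r = true → q.1.testBit (r + q.2) = false)

theorem lane_mds (L N y : ℕ) (hL : 0 < L) (ps : List (ℕ × ℕ)) (hps : ∀ q ∈ ps, GoodP L q) :
    ∀ (X i : ℕ), lane L i (mds (y &&& ones L N) ps X) =
      if sel L N y i = true then dss ps (lane L i X) else lane L i X := by
  induction ps with
  | nil => intro X i; simp [mds, dss]
  | cons q ps ih =>
    intro X i
    have hq := hps q List.mem_cons_self
    have h1 := ih (fun q hq => hps q (List.mem_cons_of_mem _ hq))
      (ds X ((y &&& ones L N) * q.1) q.2) i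
    have e1 : mds (y &&& ones L N) (q :: ps) X = mds (y &&& ones L N) ps
      (ds X ((y &&& ones L N) * q.1) q.2) := rfl
    have e2 : ∀ x, dss (q :: ps) x = dss ps (ds x q.1 q.2) := fun _ => rfl
    rw [e1, h1, lane_rel L N q.2 q.1 y X hL hq.1 hq.2, e2]
    split_ifs <;> rfl

theorem V_mds (L N y : ℕ) (hL : 0 < L) (ps : List (ℕ × ℕ)) (hps : ∀ q ∈ ps, GoodP L q)
    (φ : ℕ → ℝ) (hφ : ∀ x < 2 ^ L, φ (dss ps x) = φ x) (X : ℕ) :
    V L N φ (mds (y &&& ones L N) ps X) = V L N φ X := by
  unfold V
  refine Finset.sum_congr rfl fun i _ => ?_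
  rw [lane_mds L N y hL ps hps]
  split_ifs
  · exact hφ _ (lane_lt _ _ _)
  · rfl

theorem mds_lt (L N y : ℕ) (hL : 0 < L) (ps : List (ℕ × ℕ)) (hps : ∀ q ∈ ps, GoodP L q)
    (X : ℕ) (hX : X < 2 ^ (L * N)) : mds (y &&& ones L N) ps X < 2 ^ (L * N) := by
  apply lt_of_lanes hL
  intro i hi
  rw [lane_mds L N y hL ps hps, if_neg (fun h => by have := sel_lt h; omega)]
  exact lane_big hX hi

end Simd

end MP433Sys
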