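import Pool.Agent.Work.MP_433a35_co.GB.Simd.Mrg

/-!
# Programs (helper36)
-/

set_option linter.unusedVariables false

namespace MP433Sys

namespace Simd

open Finset

/-! ### tests of fields -/

/-- bit `L * i` of the result: the field of lane `i` plus `a` is at least `2 ^ m` -/
def ft (L N X pos m a : ℕ) : ℕ :=
  (((X >>> pos) &&& (ones L N * (2 ^ m - 1))) + ones L N * a) >>> m

theorem ones_mul (L N p : ℕ) : ones L N * p = vec L N fun _ => p := by
  unfold ones
  rw [vec_mul]
  exact vec_congr fun i _ => one_mul p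

theorem ft_testBit (L N X pos m a : ℕ) (hpm : pos + m ≤ L) (hm : m < L) (ha : a < 2 ^ m) (i : ℕ)
    (hi : i < N) : (ft L N X pos m a).testBit (L * i) =
      decide (2 ^ m ≤ lane L i X / 2 ^ pos % 2 ^ m + a) := by
  have hL : 0 < L := by omega
  have hmL : (2 : ℕ) ^ m < 2 ^ L := Nat.pow_lt_pow_right (by norm_num) hm
  have hm1 : 2 ^ m - 1 < 2 ^ L := by omega
  have h1 : (X >>> pos) &&& (ones L N * (2 ^ m - 1)) =
      vec L N fun i => lane L i X / 2 ^ pos % 2 ^ m := by
    rw [ones_mul]
    apply lane_ext hL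
    intro i
    rw [lane_land, lane_vec _ _ _ (fun _ _ => hm1), lane_vec _ _ _ (fun _ _ =>
      lt_trans (Nat.mod_lt _ (by positivity)) hmL)]
    by_cases hi : i < N
    · rw [if_pos hi, if_pos hi]
      apply Nat.eq_of_testBit_eq
      intro r
      rw [Nat.testBit_and, lane_testBit, Nat.testBit_shiftRight, Nat.testBit_two_pow_sub_one,
        Nat.testBit_mod_two_pow, Nat.testBit_div_two_pow, lane_testBit]
      by_cases hr : r < m
      · rw [decide_eq_true hr, decide_eq_true (show r < L by omega),
          decide_eq_true (show r + pos < L by omega), Bool.and_true, Bool.true_and, Bool.true_and,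
          Bool.true_and]
        congr 1
        ring
      · rw [decide_eq_false hr, Bool.and_false, Bool.false_and]
    · rw [if_neg hi, if_neg hi, Nat.and_zero]
  unfold ft
  rw [h1, ones_mul, vec_add, Nat.testBit_shiftRight, add_comm m]
  have h2 : ∀ i, lane L i X / 2 ^ pos % 2 ^ m + a < 2 * 2 ^ m := by
    intro i
    have : lane L i X / 2 ^ pos % 2 ^ m < 2 ^ m := Nat.mod_lt _ (by positivity)
    omega
  have h3 : 2 * 2 ^ m ≤ 2 ^ L := by
    rw [← pow_succ']
    exact Nat.pow_le_pow_right (by norm_num) hm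
  rw [vec_testBit L N _ (fun i _ => lt_of_lt_of_le (h2 i) h3) i m hm, decide_eq_true hi,
    Bool.true_and, Nat.testBit_eq_decide_div_mod_eq]
  have h4 := h2 i
  generalize lane L i X / 2 ^ pos % 2 ^ m + a = z at h4
  rw [decide_eq_decide]
  constructor
  · intro h
    by_contra hlt
    rw [Nat.div_eq_of_lt (not_le.1 hlt)] at h
    exact absurd h (by norm_num)
  · intro h
    have : z / 2 ^ m = 1 := by
      apply Nat.div_eq_of_lt_le
      · rw [one_mul]; exact h
      · exact h4
    rw [this]

theorem ones_testBit (L N i : ℕ) (hL : 0 < L) (hi : i < N) : (ones L N).testBit (L * i) = true := by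
  have := vec_testBit L N (fun _ => 1) (fun _ _ => one_lt_pow hL) i 0 hL
  unfold ones
  rw [add_zero] at this
  rw [this, decide_eq_true hi]
  rfl

theorem land_ones_testBit (L N y i : ℕ) (hL : 0 < L) :
    (y &&& ones L N).testBit (L * i) = sel L N y i := by
  rw [land_ones L N y hL]
  have := vec_testBit L N (fun i => if sel L N y i = true then 1 else 0)
    (fun _ _ => bit_lt hL _) i 0 hL
  rw [add_zero] at this
  rw [this]
  cases h : sel L N y i
  · simp
  · have := sel_lt h
    simp [this]

/-- checks of a mask of lanes which are paired with the lanes at distance `D` -/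
def pairOK (L N y D : ℕ) : Bool :=
  Nat.beq ((y &&& ones L N) &&& ((y &&& ones L N) >>> (L * D))) 0 &&
  Nat.beq ((y &&& ones L N) >>> (L * (N - D))) 0

theorem pairOK_spec (L N y D : ℕ) (hL : 0 < L) (h : pairOK L N y D = true) :
    (∀ i, sel L N y i = true → sel L N y (i + D) = false) ∧
    (∀ i, sel L N y i = true → i + D < N) := by
  unfold pairOK at h
  rw [Bool.and_eq_true] at h
  have h1 := Nat.eq_of_beq_eq_true h.1
  have h2 := Nat.eq_of_beq_eq_true h.2
  constructor
  · intro i hi
    have h3 := congrArg (fun z => z.testBit (L * i)) h1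
    simp only [Nat.testBit_and, Nat.testBit_shiftRight, Nat.zero_testBit] at h3
    rw [← Nat.testBit_and, land_ones_testBit L N y i hL, hi, Bool.true_and, ← Nat.testBit_and] at h3
    have e : L * D + L * i = L * (i + D) := by ring
    rw [e, land_ones_testBit L N y (i + D) hL] at h3
    exact h3
  · intro i hi
    by_contra hge
    have h3 := congrArg (fun z => z.testBit (L * i - L * (N - D))) h2
    simp only [Nat.testBit_shiftRight, Nat.zero_testBit] at h3
    have hle : L * (N - D) ≤ L * i := Nat.mul_le_mul_left _ (by omega)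
    rw [Nat.add_sub_cancel' hle, land_ones_testBit L N y i hL, hi] at h3
    exact absurd h3 (by simp)

/-- lanes of `A` whose code agrees with the one at distance `D` -/
def eqm (L N CB X A D : ℕ) : ℕ :=
  A &&& (ones L N ^^^ ft L N (X ^^^ (X >>> (L * D))) 0 CB (2 ^ CB - 1))

theorem sel_and (L N y z i : ℕ) : sel L N (y &&& z) i = (sel L N y i && sel L N z i) := by
  unfold sel
  rw [Nat.testBit_and]
  cases decide (i < N) <;> simp

theorem sel_compl (L N z i : ℕ) (hL : 0 < L) (h : sel L N (ones L N ^^^ z) i = true) :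
    i < N ∧ z.testBit (L * i) = false := by
  have hi := sel_lt h
  refine ⟨hi, ?_⟩
  unfold sel at h
  rw [Nat.testBit_xor, ones_testBit L N i hL hi, decide_eq_true hi, Bool.true_and] at h
  cases hz : z.testBit (L * i)
  · rfl
  · rw [hz] at h
    exact absurd h (by simp)

theorem eqm_spec (L N CB X A D : ℕ) (hL : 0 < L) (hCB : CB < L) (i : ℕ)
    (h : sel L N (eqm L N CB X A D) i = true) :
    sel L N A i = true ∧ lane L i X % 2 ^ CB = lane L (i + D) X % 2 ^ CB := by
  unfold eqm at h
  rw [sel_and, Bool.and_eq_true] at h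
  refine ⟨h.1, ?_⟩
  obtain ⟨hi, h2⟩ := sel_compl L N _ i hL h.2
  have hp : 0 < 2 ^ CB := by positivity
  rw [ft_testBit L N _ 0 CB _ (by omega) hCB (by omega) i hi] at h2
  rw [decide_eq_false_iff_not, lane_xor, lane_shr, pow_zero, Nat.div_one, Nat.xor_mod_two_pow] at h2
  have h3 : lane L i X % 2 ^ CB ^^^ lane L (i + D) X % 2 ^ CB = 0 := by omega
  exact Nat.xor_eq_zero_iff.1 h3

/-! ### dropping -/

/-- the weights of the lanes of the mask are replaced by zero -/
def drp (L N CB WB X y : ℕ) : ℕ :=
  (X - (X &&& ((y &&& ones L N) * WM CB WB))) + (y &&& ones L N) * BB CB WB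

theorem drp_vec (L N CB WB X y : ℕ) (hL : 0 < L) (hWB : 0 < WB) (hCW : CB + WB ≤ L)
    (hX : X < 2 ^ (L * N)) : drp L N CB WB X y = vec L N fun i =>
      if sel L N y i = true then setw CB WB (lane L i X) (2 ^ (WB - 1)) else lane L i X := by
  have hWM := WM_lt L CB WB hCW
  have hwl : ∀ x, wf CB WB x * 2 ^ CB < 2 ^ L := by
    intro x
    have h1 : wf CB WB x * 2 ^ CB < 2 ^ WB * 2 ^ CB :=
      Nat.mul_lt_mul_of_pos_right (wf_lt CB WB x) (by positivity)
    rw [← pow_add] at h1
    exact lt_of_lt_of_le h1 (Nat.pow_le_pow_right (by norm_num) (by omega))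
  have ht : X &&& ((y &&& ones L N) * WM CB WB) =
      vec L N fun i => if sel L N y i = true then wf CB WB (lane L i X) * 2 ^ CB else 0 := by
    apply lane_ext hL
    intro i
    rw [lane_land, lane_mask L N y _ hL hWM, lane_vec _ _ _ (fun _ _ => ite_lt (hwl _) _)]
    by_cases h : sel L N y i = true
    · rw [if_pos h, if_pos (sel_lt h), if_pos h, land_WM]
    · rw [if_neg h, Nat.and_zero]
      split_ifs <;> rfl
  unfold drp
  rw [ht, mask_vec L N y _ hL]
  have hXv := vec_lane L N X hX
  have h1 : X - (vec L N fun i => if sel L N y i = true then wf CB WB (lane L i X) * 2 ^ CB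
      else 0) = vec L N fun i => if sel L N y i = true then
        lane L i X - wf CB WB (lane L i X) * 2 ^ CB else lane L i X := by
    apply Nat.sub_eq_of_eq_add
    refine Eq.trans (b := vec L N (fun i => lane L i X)) hXv.symm ?_
    rw [vec_add]
    refine vec_congr fun i _ => ?_
    have hd := decomp CB WB (lane L i X)
    by_cases h : sel L N y i = true
    · rw [if_pos h, if_pos h]
      omega
    · rw [if_neg h, if_neg h, add_zero]
  rw [h1, vec_add]
  refine vec_congr fun i _ => ?_
  have hd := decomp CB WB (lane L i X)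
  by_cases h : sel L N y i = true
  · rw [if_pos h, if_pos h, if_pos h]
    unfold setw BB
    omega
  · rw [if_neg h, if_neg h, if_neg h, add_zero]

theorem drp_spec (L N CB WB X y : ℕ) (hL : 0 < L) (hWB : 0 < WB) (hCW : CB + WB ≤ L)
    (hX : Inv L N CB WB X) (F : ℕ → ℝ) (hF : ∀ x y, x % 2 ^ CB = y % 2 ^ CB → F x = F y)
    (hF0 : ∀ x, 0 ≤ F x) (bt : ℝ) (hbt : 0 ≤ bt)
    (hd : ∀ i, sel L N y i = true → F (lane L i X) ≤ bt) :
    Inv L N CB WB (drp L N CB WB X y) ∧
      Phi L N CB WB F bt (drp L N CB WB X y) ≤ Phi L N CB WB F bt X := by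
  obtain ⟨hX1, hX2⟩ := hX
  have hvec := drp_vec L N CB WB X y hL hWB hCW hX1
  have hB2 : (2 : ℕ) ^ (WB - 1) < 2 ^ WB := Nat.pow_lt_pow_right (by norm_num) (by omega)
  have hlt : ∀ i, (if sel L N y i = true then setw CB WB (lane L i X) (2 ^ (WB - 1))
      else lane L i X) < 2 ^ L := by
    intro i
    split_ifs
    · exact setw_lt L CB WB _ _ hCW (lane_lt _ _ _) hB2
    · exact lane_lt _ _ _
  have hl : ∀ i ∈ range N, lane L i (drp L N CB WB X y) =
      if sel L N y i = true then setw CB WB (lane L i X) (2 ^ (WB - 1)) else lane L i X :=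
    fun i hi => lane_eq_of_vec hvec (fun i _ => hlt i) (Finset.mem_range.1 hi)
  have hv0 : ∀ x, vr CB WB (setw CB WB x (2 ^ (WB - 1))) = 0 := by
    intro x
    rw [vr_setw _ _ _ _ hB2]
    push_cast
    ring
  have hterm : ∀ i ∈ range N,
      vr CB WB (lane L i (drp L N CB WB X y)) * F (lane L i (drp L N CB WB X y)) +
        |vr CB WB (lane L i (drp L N CB WB X y))| * bt ≤
      vr CB WB (lane L i X) * F (lane L i X) + |vr CB WB (lane L i X)| * bt ∧
      |vr CB WB (lane L i (drp L N CB WB X y))| ≤ |vr CB WB (lane L i X)| := by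
    intro i hi
    rw [hl i hi]
    by_cases h : sel L N y i = true
    · rw [if_pos h, hv0, abs_zero, zero_mul, zero_mul, add_zero]
      refine ⟨?_, abs_nonneg _⟩
      have h1 := hd i h
      have h2 := neg_abs_le (vr CB WB (lane L i X))
      have h3 := abs_nonneg (vr CB WB (lane L i X))
      have h4 := hF0 (lane L i X)
      nlinarith [mul_le_mul_of_nonneg_right h2 h4, mul_le_mul_of_nonneg_left h1 h3]
    · rw [if_neg h]
      exact ⟨le_refl _, le_refl _⟩
  refine ⟨⟨?_, ?_⟩, ?_⟩
  · rw [hvec]
    exact vec_lt L N _ fun i _ => hlt i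
  · exact lt_of_le_of_lt (Finset.sum_le_sum fun i hi => (hterm i hi).2) hX2
  · unfold Phi V
    rw [Finset.sum_mul, Finset.sum_mul, ← Finset.sum_add_distrib, ← Finset.sum_add_distrib]
    exact Finset.sum_le_sum fun i hi => (hterm i hi).1

/-! ### the final check -/

theorem fin_spec (L N CB WB X : ℕ) (hL : 0 < L) (hWB : 0 < WB) (hCW : CB + WB ≤ L)
    (h : X &&& (ones L N * 2 ^ (CB + WB - 1)) = ones L N * 2 ^ (CB + WB - 1))
    (F : ℕ → ℝ) (hF0 : ∀ x, 0 ≤ F x) (bt : ℝ) (hbt : 0 ≤ bt) :
    0 ≤ Phi L N CB WB F bt X := by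
  have hlt : (2 : ℕ) ^ (CB + WB - 1) < 2 ^ L := Nat.pow_lt_pow_right (by norm_num) (by omega)
  have hw : ∀ i ∈ range N, 0 ≤ vr CB WB (lane L i X) := by
    intro i hi
    have hi' := Finset.mem_range.1 hi
    have h1 := congrArg (fun z => (lane L i z).testBit (CB + WB - 1)) h
    simp only [lane_land, Nat.testBit_and] at h1
    rw [ones_mul, lane_vec _ _ _ (fun _ _ => hlt), if_pos hi', Nat.testBit_two_pow_self,
      Bool.and_true] at h1
    have h2 : 2 ^ (WB - 1) ≤ wf CB WB (lane L i X) := by
      have h3 : (wf CB WB (lane L i X)).testBit (WB - 1) = true := by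
        unfold wf
        rw [Nat.testBit_mod_two_pow, Nat.testBit_div_two_pow, decide_eq_true (by omega),
          Bool.true_and]
        have : WB - 1 + CB = CB + WB - 1 := by omega
        rw [this]
        exact h1
      exact Nat.ge_two_pow_of_testBit h3
    unfold vr
    have h4 : ((2 ^ (WB - 1) : ℕ) : ℝ) ≤ wf CB WB (lane L i X) := by exact_mod_cast h2
    push_cast at h4
    linarith
  unfold Phi V
  refine add_nonneg (Finset.sum_nonneg fun i hi => mul_nonneg (hw i hi) (hF0 _))
    (mul_nonneg (Finset.sum_nonneg fun i _ => abs_nonneg _) hbt)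

end Simd

end MP433Sys
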