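import Pool.Agent.Work.MP_433a35_co.GB.Simd.Prog

/-!
# Running a program in the kernel (helper36)
-/

set_option linter.unusedVariables false

namespace MP433Sys

namespace Simd

open Finset

variable {S : Spec} {V : Type*} [Fintype V] (T : Sys S V)

/-! ### digits and bits -/

theorem dig_testBit (c i s : ℕ) :
    (dig c i).testBit s = (decide (s < 3) && c.testBit (3 * i + s)) := by
  unfold dig
  have e8 : (8 : ℕ) ^ i = 2 ^ (3 * i) := by rw [pow_mul]; norm_num
  have e3 : (8 : ℕ) = 2 ^ 3 := by norm_num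
  rw [e8]
  conv_lhs => rw [e3]
  rw [Nat.testBit_mod_two_pow, Nat.testBit_div_two_pow, add_comm]

theorem dig_eq_of {a b i j : ℕ} (h : ∀ s < 3, a.testBit (3 * i + s) = b.testBit (3 * j + s)) :
    dig a i = dig b j := by
  apply Nat.eq_of_testBit_eq
  intro s
  rw [dig_testBit, dig_testBit]
  by_cases hs : s < 3
  · rw [h s hs]
  · rw [decide_eq_false hs, Bool.false_and, Bool.false_and]

theorem pcount_congr (k a b : ℕ) (free : List ℕ) (h : ∀ i < npr k, dig a i = dig b i) :
    T.pcount k a free = T.pcount k b free := by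
  unfold Sys.pcount Sys.wt
  refine Finset.sum_congr rfl fun t _ => Finset.prod_congr rfl fun q _ =>
    Finset.prod_congr rfl fun p _ => ?_
  by_cases hpq : p < q ∧ idx p q ∉ free
  · rw [if_pos hpq, if_pos hpq, h _ (idx_lt hpq.1 q.2)]
  · rw [if_neg hpq, if_neg hpq]

theorem dig_of_mod {n a b : ℕ} (h : a % 2 ^ (3 * n) = b % 2 ^ (3 * n)) (i : ℕ) (hi : i < n) :
    dig a i = dig b i := by
  apply dig_eq_of
  intro s hs
  have h1 := congrArg (fun z => z.testBit (3 * i + s)) h
  simp only [Nat.testBit_mod_two_pow] at h1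
  rw [decide_eq_true (show 3 * i + s < 3 * n by omega), Bool.true_and, Bool.true_and] at h1
  exact h1

theorem full_cod (k : ℕ) : ∀ x y, x % 2 ^ (3 * npr k) = y % 2 ^ (3 * npr k) →
    T.full k x = T.full k y :=
  fun x y h => pcount_congr T k x y [] fun i hi => dig_of_mod h i hi

/-! ### transpositions -/

/-- the bit of `x` which is bit `r` of `dss ps x` -/
def comp : List (ℕ × ℕ) → ℕ → ℕ
  | [], r => r
  | q :: ps, r => rho q.1 q.2 (comp ps r)

/-- check of a list of exchanges for the relabelling `w`, `s` -/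
def tauOK (k : ℕ) (x : List (ℕ × ℕ) × ℕ × ℕ) : Bool :=
  permOK k x.2.1 x.2.2 &&
  (x.1.all fun q => Nat.beq (q.1 &&& (q.1 >>> q.2)) 0 && decide (q.1 <<< q.2 < 2 ^ (3 * npr k))) &&
  (List.range (3 * npr k)).all fun r =>
    Nat.beq (comp x.1 r) (3 * (x.2.1 / 32 ^ (r / 3) % 32) + r % 3)

theorem goodP_of {k L : ℕ} {q : ℕ × ℕ} (hkL : 3 * npr k ≤ L)
    (h : (Nat.beq (q.1 &&& (q.1 >>> q.2)) 0 && decide (q.1 <<< q.2 < 2 ^ (3 * npr k))) = true) :
    (∀ r, q.1.testBit r = true → r + q.2 < 3 * npr k) ∧ GoodP L q := by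
  rw [Bool.and_eq_true, decide_eq_true_eq] at h
  have h1 := Nat.eq_of_beq_eq_true h.1
  have h3 : ∀ r, q.1.testBit r = true → r + q.2 < 3 * npr k := by
    intro r hr
    by_contra hge
    have h4 := Nat.testBit_lt_two_pow (lt_of_lt_of_le h.2
      (Nat.pow_le_pow_right (by norm_num) (not_lt.1 hge)))
    rw [Nat.testBit_shiftLeft, decide_eq_true (by simp), Bool.true_and, Nat.add_sub_cancel,
      hr] at h4
    exact absurd h4 (by simp)
  refine ⟨h3, fun r hr => lt_of_lt_of_le (h3 r hr) hkL, fun r hr => ?_⟩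
  have h4 := congrArg (fun z => z.testBit r) h1
  simp only [Nat.testBit_and, Nat.testBit_shiftRight, Nat.zero_testBit] at h4
  rw [hr, Bool.true_and, add_comm] at h4
  exact h4

theorem dss_testBit (L : ℕ) (ps : List (ℕ × ℕ)) (hps : ∀ q ∈ ps, GoodP L q) (x r : ℕ) :
    (dss ps x).testBit r = x.testBit (comp ps r) := by
  induction ps generalizing x with
  | nil => rfl
  | cons q ps ih =>
    have e : dss (q :: ps) x = dss ps (ds x q.1 q.2) := rfl
    rw [e, ih (fun q hq => hps q (List.mem_cons_of_mem _ hq)),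
      ds_testBit _ _ _ _ (hps q List.mem_cons_self).2]
    rfl

theorem comp_big {k : ℕ} (ps : List (ℕ × ℕ))
    (hps : ∀ q ∈ ps, ∀ r, q.1.testBit r = true → r + q.2 < 3 * npr k) (r : ℕ)
    (hr : 3 * npr k ≤ r) : comp ps r = r := by
  induction ps with
  | nil => rfl
  | cons q ps ih =>
    have e : comp (q :: ps) r = rho q.1 q.2 (comp ps r) := rfl
    rw [e, ih fun q hq => hps q (List.mem_cons_of_mem _ hq)]
    unfold rho
    rw [if_neg (fun h => by have := hps q List.mem_cons_self r h; omega), if_neg (fun h => by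
      have := hps q List.mem_cons_self _ h.2; omega)]

theorem tau_spec (k L : ℕ) (hk : k ≤ 8) (hkL : 3 * npr k ≤ L) (x : List (ℕ × ℕ) × ℕ × ℕ)
    (h : tauOK k x = true) :
    (∀ q ∈ x.1, GoodP L q) ∧ (∀ z, T.full k (dss x.1 z) = T.full k z) ∧
      ∀ z WB, wf (3 * npr k) WB (dss x.1 z) = wf (3 * npr k) WB z := by
  unfold tauOK at h
  rw [Bool.and_eq_true, Bool.and_eq_true, List.all_eq_true, List.all_eq_true] at h
  obtain ⟨⟨h1, h2⟩, h3⟩ := h
  have hg : ∀ q ∈ x.1, GoodP L q := fun q hq => (goodP_of hkL (h2 q hq)).2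
  have hg' : ∀ q ∈ x.1, ∀ r, q.1.testBit r = true → r + q.2 < 3 * npr k :=
    fun q hq => (goodP_of hkL (h2 q hq)).1
  refine ⟨hg, fun z => ?_, fun z WB => ?_⟩
  · rw [← full_relab T k z x.2.1 x.2.2 hk h1]
    refine pcount_congr T k _ _ [] fun i hi => ?_
    rw [dig_relab _ _ _ _ hi]
    apply dig_eq_of
    intro s hs
    rw [dss_testBit L x.1 hg]
    have h4 := Nat.eq_of_beq_eq_true (h3 (3 * i + s) (List.mem_range.2 (by omega)))
    rw [h4]
    have e1 : (3 * i + s) / 3 = i := by omega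
    have e2 : (3 * i + s) % 3 = s := by omega
    rw [e1, e2]
  · unfold wf
    congr 1
    apply Nat.eq_of_testBit_eq
    intro r
    rw [Nat.testBit_div_two_pow, Nat.testBit_div_two_pow, dss_testBit L x.1 hg,
      comp_big x.1 hg' _ (by omega)]

/-! ### the kernel functions -/

/-- parameters: positions, bits of a lane, bits of a weight, table of transpositions -/
structure Par where
  k : ℕ
  L : ℕ
  WB : ℕ
  tab : List (List (ℕ × ℕ) × ℕ × ℕ)
  tf : Bool

/-- bits of a code -/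
def Par.CB (c : Par) : ℕ := 3 * npr c.k

/-- check of the parameters -/
def Par.ok (S : Spec) (c : Par) : Bool :=
  decide (c.k ≤ 8) && decide (4 ≤ c.k) && decide (0 < c.WB) && decide (c.CB + c.WB ≤ c.L) &&
  (c.tab.all fun x => tauOK c.k x) && S.fg.contains 2 && S.fg.contains 3 && S.fg.contains 4

/-- operations -/
inductive Op where
  | rel (j m : ℕ)
  | swp (D m : ℕ)
  | mrg (D m : ℕ)
  | drv
  | drt

/-- exchange of bits -/
noncomputable def dsF (X m d : ℕ) (K : ℕ → Bool) : Bool :=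
  force (Nat.land (Nat.xor X (Nat.shiftRight X d)) m) fun t =>
  force (Nat.xor X (Nat.xor t (Nat.shiftLeft t d))) K

theorem dsF_eq (X m d : ℕ) (K : ℕ → Bool) : dsF X m d K = K (ds X m d) := by
  unfold dsF
  rw [force_eq, force_eq]
  rfl

/-- exchanges inside the lanes of a mask -/
noncomputable def mdsF (b : ℕ) (ps : List (ℕ × ℕ)) : ℕ → (ℕ → Bool) → Bool :=
  @List.rec (ℕ × ℕ) (fun _ => ℕ → (ℕ → Bool) → Bool) (fun X K => K X)
    (fun q _ ih X K => dsF X (Nat.mul b q.1) q.2 fun X' => ih X' K) ps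

theorem mdsF_eq (b : ℕ) (ps : List (ℕ × ℕ)) : ∀ (X : ℕ) (K : ℕ → Bool),
    mdsF b ps X K = K (mds b ps X) := by
  induction ps with
  | nil => intro X K; rfl
  | cons q ps ih =>
    intro X K
    have e : mdsF b (q :: ps) X K = dsF X (Nat.mul b q.1) q.2 fun X' => mdsF b ps X' K := rfl
    rw [e, dsF_eq, ih]
    rfl

/-- check of a mask -/
noncomputable def pairF (L N b D : ℕ) : Bool :=
  band (Nat.beq (Nat.land b (Nat.shiftRight b (Nat.mul L D))) 0)
    (Nat.beq (Nat.shiftRight b (Nat.mul L (Nat.sub N D))) 0)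

theorem pairF_eq (L N y D : ℕ) : pairF L N (y &&& ones L N) D = pairOK L N y D := by
  unfold pairF pairOK band
  change @Bool.rec (fun _ => Bool) false
    (Nat.beq ((y &&& ones L N) >>> (L * (N - D))) 0)
    (Nat.beq ((y &&& ones L N) &&& ((y &&& ones L N) >>> (L * D))) 0) = _
  cases Nat.beq ((y &&& ones L N) &&& ((y &&& ones L N) >>> (L * D))) 0 <;> rfl

/-- test of a field -/
noncomputable def ftF (on X pos m a : ℕ) : ℕ :=
  Nat.shiftRight (Nat.add (Nat.land (Nat.shiftRight X pos)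
    (Nat.mul on (Nat.sub (Nat.pow 2 m) 1))) (Nat.mul on a)) m

theorem ftF_eq (L N X pos m a : ℕ) : ftF (ones L N) X pos m a = ft L N X pos m a := rfl

/-- merging -/
noncomputable def mrgF (L CB WB on X A D : ℕ) (K : ℕ → Bool) : Bool :=
  force (Nat.shiftRight X (Nat.mul L D)) fun Y =>
  force (Nat.land A (Nat.xor on (ftF on (Nat.xor X Y) 0 CB (Nat.sub (Nat.pow 2 CB) 1)))) fun b =>
  force (Nat.land Y (Nat.mul b (Nat.mul (Nat.sub (Nat.pow 2 WB) 1) (Nat.pow 2 CB)))) fun t =>
  force (Nat.mul b (Nat.mul (Nat.pow 2 (Nat.sub WB 1)) (Nat.pow 2 CB))) fun bB =>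
  force (Nat.sub (Nat.add (Nat.add X t) (Nat.shiftLeft bB (Nat.mul L D)))
    (Nat.add (Nat.shiftLeft t (Nat.mul L D)) bB)) K

theorem mrgF_eq (L N CB WB X m D : ℕ) (K : ℕ → Bool) :
    mrgF L CB WB (ones L N) X (m &&& ones L N) D K =
      K (mrg L N CB WB X (eqm L N CB X m D) D) := by
  unfold mrgF
  rw [force_eq, force_eq, force_eq, force_eq, force_eq]
  have e : eqm L N CB X m D &&& ones L N =
      Nat.land (m &&& ones L N) (Nat.xor (ones L N) (ftF (ones L N)
        (Nat.xor X (Nat.shiftRight X (Nat.mul L D))) 0 CB (Nat.sub (Nat.pow 2 CB) 1))) := by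
    change (m &&& (ones L N ^^^ ft L N (X ^^^ (X >>> (L * D))) 0 CB (2 ^ CB - 1))) &&& ones L N =
      (m &&& ones L N) &&& (ones L N ^^^ ft L N (X ^^^ (X >>> (L * D))) 0 CB (2 ^ CB - 1))
    rw [Nat.and_assoc, Nat.and_assoc]
    congr 1
    exact Nat.and_comm _ _
  unfold mrg
  rw [e]
  rfl

/-- replacing weights by zero -/
noncomputable def drpF (CB WB on X y : ℕ) (K : ℕ → Bool) : Bool :=
  force (Nat.land y on) fun b =>
  force (Nat.add (Nat.sub X (Nat.land X (Nat.mul b (Nat.mul (Nat.sub (Nat.pow 2 WB) 1)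
    (Nat.pow 2 CB))))) (Nat.mul b (Nat.mul (Nat.pow 2 (Nat.sub WB 1)) (Nat.pow 2 CB)))) K

theorem drpF_eq (L N CB WB X y : ℕ) (K : ℕ → Bool) :
    drpF CB WB (ones L N) X y K = K (drp L N CB WB X y) := by
  unfold drpF
  rw [force_eq, force_eq]
  rfl

/-- rows of the further positions -/
noncomputable def rowsM (on X : ℕ) (k : ℕ) : ℕ → ℕ :=
  @Nat.rec (fun _ => ℕ) on fun q ih =>
    @Bool.rec (fun _ => ℕ) ih
      (@Bool.rec (fun _ => ℕ) ih (Nat.land ih (ftF on X (Nat.mul 3 (npr q)) (Nat.mul 3 q)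
        (Nat.sub (Nat.pow 2 (Nat.mul 3 q)) 1))) (Nat.ble (Nat.succ q) k)) (Nat.ble 4 q)

/-- the lanes with two `F`-pairs which are not joined -/
noncomputable def violM (k on X : ℕ) : ℕ :=
  Nat.land (Nat.land (Nat.land (Nat.xor on (ftF on X 3 12 4095))
    (Nat.land (ftF on X 0 3 6) (Nat.xor on (ftF on X 0 3 3))))
    (Nat.land (ftF on X 15 3 6) (Nat.xor on (ftF on X 15 3 3)))) (rowsM on X k k)

/-- the lanes with a joined triple -/
noncomputable def triM (on X : ℕ) : ℕ :=
  Nat.land (Nat.land (ftF on X 0 3 7) (ftF on X 3 3 7)) (ftF on X 6 3 7)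

/-- one operation -/
noncomputable def stepF (c : Par) (N on : ℕ) (o : Op) (X : ℕ) (K : ℕ → Bool) : Bool :=
  @Op.rec (fun _ => Bool)
    (fun j m => force (Nat.land m on) fun b => mdsF b (c.tab.getD j ([], 0, 0)).1 X K)
    (fun D m => force (Nat.land m on) fun b => band (pairF c.L N b D)
      (dsF X (Nat.mul b (Nat.sub (Nat.pow 2 c.L) 1)) (Nat.mul c.L D) K))
    (fun D m => force (Nat.land m on) fun A => band (pairF c.L N A D)
      (mrgF c.L c.CB c.WB on X A D K))
    (drpF c.CB c.WB on X (violM c.k on X) K)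
    (band c.tf (drpF c.CB c.WB on X (triM on X) K))
    o

/-- a list of operations -/
noncomputable def runF (c : Par) (N on : ℕ) (os : List Op) : ℕ → (ℕ → Bool) → Bool :=
  @List.rec Op (fun _ => ℕ → (ℕ → Bool) → Bool) (fun X K => K X)
    (fun o _ ih X K => stepF c N on o X fun X' => ih X' K) os

/-- all weights are nonnegative -/
noncomputable def finF (c : Par) (on X : ℕ) : Bool :=
  Nat.beq (Nat.land X (Nat.mul on (Nat.pow 2 (Nat.sub (Nat.add c.CB c.WB) 1))))
    (Nat.mul on (Nat.pow 2 (Nat.sub (Nat.add c.CB c.WB) 1)))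

end Simd

end MP433Sys
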