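import Pool.Agent.Work.MP_433a35_co.GB.Simd.Run

/-!
# Correctness of programs (helper36)
-/

set_option linter.unusedVariables false

namespace MP433Sys

namespace Simd

open Finset

variable {S : Spec} {W : Type*} [Fintype W] (T : Sys S W)

/-- the properties of the parameters -/
structure Par.Ok (S : Spec) (c : Par) : Prop where
  hk8 : c.k ≤ 8
  hk4 : 4 ≤ c.k
  hWB : 0 < c.WB
  hL : c.CB + c.WB ≤ c.L
  htab : ∀ x ∈ c.tab, tauOK c.k x = true
  h2 : 2 ∈ S.fg
  h3 : 3 ∈ S.fg
  h4 : 4 ∈ S.fg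

theorem Par.ok_spec {c : Par} (h : c.ok S = true) : c.Ok S := by
  unfold Par.ok at h
  simp only [Bool.and_eq_true, decide_eq_true_eq, List.all_eq_true, List.contains_eq_mem] at h
  obtain ⟨⟨⟨⟨⟨⟨⟨h1, h2⟩, h3⟩, h4⟩, h5⟩, h6⟩, h7⟩, h8⟩ := h
  exact ⟨h1, h2, h3, h4, h5, h6, h7, h8⟩

theorem Par.Ok.L_pos {c : Par} (hc : c.Ok S) : 0 < c.L := by
  have h1 := hc.hL
  have h2 := hc.hWB
  omega

theorem Par.Ok.CB_lt {c : Par} (hc : c.Ok S) : c.CB < c.L := by
  have h1 := hc.hL
  have h2 := hc.hWB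
  omega

/-- what has to be known of the system -/
structure HypS {S : Spec} {W : Type*} [Fintype W] (T : Sys S W) (c : Par) : Prop where
  bt : 0 ≤ bt T c.k
  tri : c.tf = true → ∀ r, dig r 0 ≠ 0 → dig r 1 ≠ 0 → dig r 2 ≠ 0 → T.full c.k r = 0

theorem ft_small {L N X pos m a i : ℕ} (hpm : pos + m ≤ L) (hm : m < L) (ha : a < 2 ^ m)
    (h : sel L N (ft L N X pos m a) i = true) :
    i < N ∧ 2 ^ m ≤ lane L i X / 2 ^ pos % 2 ^ m + a := by
  have hi := sel_lt h
  refine ⟨hi, ?_⟩
  unfold sel at h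
  rw [decide_eq_true hi, Bool.true_and, ft_testBit L N X pos m a hpm hm ha i hi,
    decide_eq_true_eq] at h
  exact h

theorem ft_compl {L N X pos m a i : ℕ} (hL : 0 < L) (hpm : pos + m ≤ L) (hm : m < L)
    (ha : a < 2 ^ m) (h : sel L N (ones L N ^^^ ft L N X pos m a) i = true) :
    i < N ∧ lane L i X / 2 ^ pos % 2 ^ m + a < 2 ^ m := by
  obtain ⟨hi, h1⟩ := sel_compl L N _ i hL h
  refine ⟨hi, ?_⟩
  rw [ft_testBit L N X pos m a hpm hm ha i hi, decide_eq_false_iff_not] at h1
  exact not_le.1 h1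

theorem npr_le_mul {q k : ℕ} (h : q < k) : npr q + q ≤ npr k := by
  have h1 := npr_succ q
  have h2 : npr (q + 1) ≤ npr k := npr_mono h
  omega

theorem rowsM_spec {L N X k : ℕ} (hL : 3 * npr k < L) (j i : ℕ)
    (h : sel L N (rowsM (ones L N) X k j) i = true) :
    ∀ q < j, 4 ≤ q → q < k → lane L i X / 2 ^ (3 * npr q) % 2 ^ (3 * q) ≠ 0 := by
  induction j with
  | zero => intro q hq; omega
  | succ j ih =>
    have e : rowsM (ones L N) X k (j + 1) =
      @Bool.rec (fun _ => ℕ) (rowsM (ones L N) X k j)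
      (@Bool.rec (fun _ => ℕ) (rowsM (ones L N) X k j)
        (Nat.land (rowsM (ones L N) X k j) (ftF (ones L N) X (Nat.mul 3 (npr j)) (Nat.mul 3 j)
        (Nat.sub (Nat.pow 2 (Nat.mul 3 j)) 1))) (Nat.ble (Nat.succ j) k)) (Nat.ble 4 j) := rfl
    rw [e] at h
    intro q hq hq4 hqk
    cases hb4 : Nat.ble 4 j
    · rw [hb4] at h
      by_cases hqj : q = j
      · subst hqj
        have := Nat.ble_eq_true_of_le hq4
        rw [this] at hb4
        exact absurd hb4 (by simp)
      · exact ih h q (by omega) hq4 hqk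
    · rw [hb4] at h
      cases hbk : Nat.ble (Nat.succ j) k
      · rw [hbk] at h
        by_cases hqj : q = j
        · subst hqj
          have := Nat.ble_eq_true_of_le (show Nat.succ q ≤ k from hqk)
          rw [this] at hbk
          exact absurd hbk (by simp)
        · exact ih h q (by omega) hq4 hqk
      · rw [hbk] at h
        have h' : sel L N (rowsM (ones L N) X k j &&&
          ft L N X (3 * npr j) (3 * j) (2 ^ (3 * j) - 1)) i = true := h
        rw [sel_and, Bool.and_eq_true] at h'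
        by_cases hqj : q = j
        · subst hqj
          have hp : 0 < 2 ^ (3 * q) := by positivity
          have hn := npr_le_mul hqk
          have := (ft_small (by omega) (by omega) (by omega) h'.2).2
          omega
        · exact ih h'.1 q (by omega) hq4 hqk

theorem violM_spec {c : Par} (hc : c.Ok S) (N X i : ℕ)
    (h : sel c.L N (violM c.k (ones c.L N) X) i = true) :
    T.full c.k (lane c.L i X) ≤ bt T c.k := by
  have hL := hc.L_pos
  have hn4 : npr 4 ≤ npr c.k := npr_mono hc.hk4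
  have e4 : npr 4 = 6 := by decide
  have hCB : c.CB = 3 * npr c.k := rfl
  have hL2 := hc.hL
  have hWB := hc.hWB
  have h' : sel c.L N ((((ones c.L N ^^^ ft c.L N X 3 12 4095) &&&
    (ft c.L N X 0 3 6 &&& (ones c.L N ^^^ ft c.L N X 0 3 3))) &&&
    (ft c.L N X 15 3 6 &&& (ones c.L N ^^^ ft c.L N X 15 3 3))) &&&
    rowsM (ones c.L N) X c.k c.k) i = true := h
  simp only [sel_and, Bool.and_eq_true] at h'
  obtain ⟨⟨⟨h1, h2, h3⟩, h4, h5⟩, h6⟩ := h'
  have g1 := (ft_compl hL (by omega) (by omega) (by norm_num) h1).2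
  have g2 := (ft_small (by omega) (by omega) (by norm_num) h2).2
  have g3 := (ft_compl hL (by omega) (by omega) (by norm_num) h3).2
  have g4 := (ft_small (by omega) (by omega) (by norm_num) h4).2
  have g5 := (ft_compl hL (by omega) (by omega) (by norm_num) h5).2
  have g6 := rowsM_spec (by omega) _ _ h6
  generalize lane c.L i X = x at *
  have d0 : dig x 0 = 2 ∨ dig x 0 = 3 ∨ dig x 0 = 4 := by
    have : dig x 0 = x / 2 ^ 0 % 2 ^ 3 := by unfold dig; norm_num
    rw [this]
    norm_num at g2 g3 ⊢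
    omega
  have d5 : dig x 5 = 2 ∨ dig x 5 = 3 ∨ dig x 5 = 4 := by
    have : dig x 5 = x / 2 ^ 15 % 2 ^ 3 := by unfold dig; norm_num
    rw [this]
    norm_num at g4 g5 ⊢
    omega
  have hm : ∀ d, d = 2 ∨ d = 3 ∨ d = 4 → S.fg.contains d = true := by
    intro d hd
    rw [List.contains_iff_mem]
    rcases hd with rfl | rfl | rfl
    · exact hc.h2
    · exact hc.h3
    · exact hc.h4
  norm_num at g1
  have k1 : dig x 1 = 0 := by unfold dig; omega
  have k2 : dig x 2 = 0 := by unfold dig; omega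
  have k3 : dig x 3 = 0 := by unfold dig; omega
  have k4 : dig x 4 = 0 := by unfold dig; omega
  have hv : viol S c.k x = true := by
    unfold viol
    simp only [Bool.and_eq_true, beq_iff_eq, decide_eq_true_eq]
    refine ⟨⟨⟨⟨⟨⟨⟨hm _ d0, hm _ d5⟩, k1⟩, k2⟩, k3⟩, k4⟩, hc.hk4⟩, ?_⟩
    rw [List.all_eq_true]
    intro q hq
    rw [Bool.or_eq_true, decide_eq_true_eq]
    by_cases hq4 : q < 4
    · exact Or.inl hq4
    · right
      rw [List.any_eq_true]
      have hq' := List.mem_range.1 hq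
      have h7 := g6 q hq' (by omega) hq'
      have e8 : ∀ m, (2 : ℕ) ^ (3 * m) = 8 ^ m := fun m => by rw [pow_mul]; norm_num
      rw [e8, e8] at h7
      obtain ⟨p, hp, hd⟩ := exists_dig_ne q _ h7
      refine ⟨p, List.mem_range.2 hp, ?_⟩
      rw [bne_iff_ne]
      have : dig x (idx p q) = dig (x / 8 ^ npr q) p := by
        unfold dig
        rw [idx_eq, pow_add, Nat.div_div_eq_div_mul]
      rw [this]
      exact hd
  obtain ⟨h8, h9⟩ := full_viol T c.k x hv
  unfold bt
  rw [if_neg (by omega)]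
  exact h9

theorem triM_spec {c : Par} (hc : c.Ok S) (hT : HypS T c) (htf : c.tf = true) (N X i : ℕ)
    (h : sel c.L N (triM (ones c.L N) X) i = true) :
    T.full c.k (lane c.L i X) ≤ bt T c.k := by
  have hL := hc.L_pos
  have hn4 : npr 4 ≤ npr c.k := npr_mono hc.hk4
  have e4 : npr 4 = 6 := by decide
  have hCB : c.CB = 3 * npr c.k := rfl
  have hL2 := hc.hL
  have hWB := hc.hWB
  have h' : sel c.L N ((ft c.L N X 0 3 7 &&& ft c.L N X 3 3 7) &&& ft c.L N X 6 3 7) i = true := h
  simp only [sel_and, Bool.and_eq_true] at h'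
  obtain ⟨⟨h1, h2⟩, h3⟩ := h'
  have g1 := (ft_small (by omega) (by omega) (by norm_num) h1).2
  have g2 := (ft_small (by omega) (by omega) (by norm_num) h2).2
  have g3 := (ft_small (by omega) (by omega) (by norm_num) h3).2
  generalize lane c.L i X = x at *
  norm_num at g1 g2 g3
  rw [hT.tri htf x (by unfold dig; norm_num; omega) (by unfold dig; norm_num; omega)
    (by unfold dig; norm_num; omega)]
  exact hT.bt

/-- the property of a step -/
def Good {S : Spec} {W : Type*} [Fintype W] (T : Sys S W) (c : Par) (N X X' : ℕ) : Prop :=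
  Inv c.L N c.CB c.WB X → Inv c.L N c.CB c.WB X' ∧
    Phi c.L N c.CB c.WB (T.full c.k) (bt T c.k) X' ≤
      Phi c.L N c.CB c.WB (T.full c.k) (bt T c.k) X

theorem step_spec {c : Par} (hc : c.Ok S) (hT : HypS T c) (N : ℕ) (o : Op) (X : ℕ)
    (K : ℕ → Bool) (h : stepF c N (ones c.L N) o X K = true) :
    ∃ X', K X' = true ∧ Good T c N X X' := by
  have hL := hc.L_pos
  have hCB := hc.CB_lt
  have hF : ∀ x y, x % 2 ^ c.CB = y % 2 ^ c.CB → T.full c.k x = T.full c.k y := full_cod T c.k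
  have hF0 : ∀ x, 0 ≤ T.full c.k x := fun x => full_nonneg T c.k x
  cases o with
  | rel j m =>
    have h' : (force (Nat.land m (ones c.L N)) fun b =>
      mdsF b (c.tab.getD j ([], 0, 0)).1 X K) = true := h
    rw [force_eq, mdsF_eq] at h'
    refine ⟨_, h', fun hX => ?_⟩
    have hg : (∀ q ∈ (c.tab.getD j ([], 0, 0)).1, GoodP c.L q) ∧
        (∀ z, T.full c.k (dss (c.tab.getD j ([], 0, 0)).1 z) = T.full c.k z) ∧
        ∀ z WB, wf (3 * npr c.k) WB (dss (c.tab.getD j ([], 0, 0)).1 z) =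
          wf (3 * npr c.k) WB z := by
      by_cases hj : j < c.tab.length
      · rw [List.getD_eq_getElem _ _ hj]
        exact tau_spec T c.k c.L hc.hk8 (le_of_lt hCB) _ (hc.htab _ (List.getElem_mem hj))
      · rw [List.getD_eq_default _ _ (not_lt.1 hj)]
        exact ⟨fun q hq => absurd hq (by simp), fun z => rfl, fun z WB => rfl⟩
    obtain ⟨g1, g2, g3⟩ := hg
    generalize (c.tab.getD j ([], 0, 0)).1 = ps at *
    have hv : ∀ z, vr c.CB c.WB (dss ps z) = vr c.CB c.WB z := by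
      intro z
      unfold vr Par.CB
      rw [g3]
    have e1 : V c.L N (fun x => vr c.CB c.WB x * T.full c.k x) (mds (m &&& ones c.L N) ps X) =
        V c.L N (fun x => vr c.CB c.WB x * T.full c.k x) X :=
      V_mds c.L N m hL ps g1 _ (fun x _ => by rw [hv, g2]) X
    have e2 : V c.L N (fun x => |vr c.CB c.WB x|) (mds (m &&& ones c.L N) ps X) =
        V c.L N (fun x => |vr c.CB c.WB x|) X :=
      V_mds c.L N m hL ps g1 _ (fun x _ => by rw [hv]) X
    refine ⟨⟨mds_lt c.L N m hL ps g1 X hX.1, ?_⟩, ?_⟩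
    · change V c.L N (fun x => |vr c.CB c.WB x|) (mds (m &&& ones c.L N) ps X) < _
      rw [e2]
      exact hX.2
    · unfold Phi
      change V c.L N _ (mds (m &&& ones c.L N) ps X) +
        V c.L N _ (mds (m &&& ones c.L N) ps X) * _ ≤ _
      rw [e1, e2]
  | swp D m =>
    have h' : (force (Nat.land m (ones c.L N)) fun b => band (pairF c.L N b D)
      (dsF X (Nat.mul b (Nat.sub (Nat.pow 2 c.L) 1)) (Nat.mul c.L D) K)) = true := h
    rw [force_eq, band_iff, dsF_eq] at h'
    obtain ⟨h1, h2⟩ := h'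
    have h1' : pairOK c.L N m D = true := by rw [← pairF_eq]; exact h1
    obtain ⟨hcf, hN⟩ := pairOK_spec c.L N m D hL h1'
    refine ⟨_, h2, fun hX => ?_⟩
    have e : ∀ φ : ℕ → ℝ, V c.L N φ (ds X (Nat.mul (Nat.land m (ones c.L N))
        (Nat.sub (Nat.pow 2 c.L) 1)) (Nat.mul c.L D)) = V c.L N φ X :=
      fun φ => V_swap c.L N D m X hL hcf hN φ
    refine ⟨⟨swap_lt c.L N D m X hL hX.1 hcf hN, ?_⟩, ?_⟩
    · rw [e]
      exact hX.2
    · unfold Phi
      rw [e, e]
  | mrg D m =>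
    have h' : (force (Nat.land m (ones c.L N)) fun A => band (pairF c.L N A D)
      (mrgF c.L c.CB c.WB (ones c.L N) X A D K)) = true := h
    rw [force_eq, band_iff] at h'
    obtain ⟨h1, h2⟩ := h'
    have h1' : pairOK c.L N m D = true := by rw [← pairF_eq]; exact h1
    have h2' : K (mrg c.L N c.CB c.WB X (eqm c.L N c.CB X m D) D) = true :=
      (mrgF_eq c.L N c.CB c.WB X m D K).symm.trans h2
    obtain ⟨hcf, hN⟩ := pairOK_spec c.L N m D hL h1'
    refine ⟨_, h2', fun hX => ?_⟩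
    have hs := eqm_spec c.L N c.CB X m D hL hCB
    refine mrg_spec c.L N c.CB c.WB X _ D hL hc.hWB hc.hL hX ?_ (fun i hi => hN i (hs i hi).1)
      (fun i hi => (hs i hi).2) _ hF _ hT.bt
    intro i hi
    have h3 := hcf i (hs i hi).1
    cases h4 : sel c.L N (eqm c.L N c.CB X m D) (i + D)
    · rfl
    · have := (hs _ h4).1
      rw [h3] at this
      exact absurd this (by simp)
  | drv =>
    have h' : drpF c.CB c.WB (ones c.L N) X (violM c.k (ones c.L N) X) K = true := h
    rw [drpF_eq] at h'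
    exact ⟨_, h', fun hX => drp_spec c.L N c.CB c.WB X _ hL hc.hWB hc.hL hX _ hF hF0 _ hT.bt
      fun i hi => violM_spec T hc N X i hi⟩
  | drt =>
    have h' : band c.tf (drpF c.CB c.WB (ones c.L N) X (triM (ones c.L N) X) K) = true := h
    rw [band_iff, drpF_eq] at h'
    exact ⟨_, h'.2, fun hX => drp_spec c.L N c.CB c.WB X _ hL hc.hWB hc.hL hX _ hF hF0 _ hT.bt
      fun i hi => triM_spec T hc hT h'.1 N X i hi⟩

theorem run_spec {c : Par} (hc : c.Ok S) (hT : HypS T c) (N : ℕ) (os : List Op) :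
    ∀ (X : ℕ) (K : ℕ → Bool), runF c N (ones c.L N) os X K = true →
    ∃ X', K X' = true ∧ Good T c N X X' := by
  induction os with
  | nil => intro X K h; exact ⟨X, h, fun hX => ⟨hX, le_refl _⟩⟩
  | cons o os ih =>
    intro X K h
    have h' : stepF c N (ones c.L N) o X (fun X' => runF c N (ones c.L N) os X' K) = true := h
    obtain ⟨X1, h1, h2⟩ := step_spec T hc hT N o X _ h'
    obtain ⟨X2, h3, h4⟩ := ih X1 K h1
    refine ⟨X2, h3, fun hX => ?_⟩
    obtain ⟨h5, h6⟩ := h2 hX
    obtain ⟨h7, h8⟩ := h4 h5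
    exact ⟨h7, h8.trans h6⟩

/-- **A program which ends with nonnegative weights.** -/
theorem run_fin {c : Par} (hc : c.Ok S) (hT : HypS T c) (N : ℕ) (os : List Op) (X : ℕ)
    (h : runF c N (ones c.L N) os X (finF c (ones c.L N)) = true)
    (hX : Inv c.L N c.CB c.WB X) :
    -(V c.L N (fun x => |vr c.CB c.WB x|) X * bt T c.k) ≤
      V c.L N (fun x => vr c.CB c.WB x * T.full c.k x) X := by
  obtain ⟨X', h1, h2⟩ := run_spec T hc hT N os X _ h
  obtain ⟨h3, h4⟩ := h2 hX
  have h5 := fin_spec c.L N c.CB c.WB X' hc.L_pos hc.hWB hc.hL (Nat.eq_of_beq_eq_true h1)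
    (T.full c.k) (fun x => full_nonneg T c.k x) (bt T c.k) hT.bt
  have h6 := h5.trans h4
  unfold Phi at h6
  linarith

end Simd

end MP433Sys
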